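import Pool.Agent.H7.GT.Stmts

/-!
# Board gt7, row XSP
-/

set_option autoImplicit false

open Finset

namespace Pool.GT7

open Pool.Agent.H23.KT Pool.Agent.H46.KW Pool.KQ

lemma XSP_nb_le {V : Type} [DecidableEq V] (G : SimpleGraph V) (p : ℕ) (W L : Finset V)
    (hCB : CB G W (p + 3)) (hLW : L ⊆ W) (hL : L.card = p + 3) (hK : G.IsClique (L : Set V))
    (z : V) (hz : z ∈ W) : (nb G L z).card ≤ p + 2 := by
  by_contra hcon
  push Not at hcon
  have h1 : nb G L z = L := by
    apply eq_of_subset_of_card_le (nb_subset G _ _)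
    omega
  have hzL : z ∉ L := by
    intro h
    rw [← h1] at h
    exact G.loopless.irrefl z ((mem_nb G).1 h).2
  have h2 : G.IsClique ((insert z L : Finset V) : Set V) := by
    rw [coe_insert, SimpleGraph.isClique_insert]
    refine ⟨hK, fun u hu _ => ?_⟩
    have hu' : u ∈ nb G L z := by rw [h1]; exact mem_coe.1 hu
    exact ((mem_nb G).1 hu').2
  have h3 := hCB (insert z L) (insert_subset hz hLW) h2
  rw [card_insert_of_notMem hzL] at h3
  omega

lemma XSP_num (r x m y η : ℝ) (hm : 0 ≤ m) (hy : 0 ≤ y) (hη : 0 ≤ η) (hη1 : η ≤ 1) :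
    min r (x + m - y) + (1 - η) * y ≤ x + m - η / 2 * y - η / 2 * max (x - r) 0 := by
  rcases le_total y (x + m - r) with h | h
  · have h1 : min r (x + m - y) ≤ r := min_le_left _ _
    have h2 : max (x - r) 0 ≤ x + m - r := max_le (by linarith) (by linarith)
    have h3 : η / 2 * max (x - r) 0 ≤ η / 2 * (x + m - r) :=
      mul_le_mul_of_nonneg_left h2 (by linarith)
    have h4 : (1 - η / 2) * y ≤ (1 - η / 2) * (x + m - r) :=
      mul_le_mul_of_nonneg_left h (by linarith)
    nlinarith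
  · have h1 : min r (x + m - y) ≤ x + m - y := min_le_right _ _
    have h2 : max (x - r) 0 ≤ y := max_le (by linarith) hy
    have h3 : η / 2 * max (x - r) 0 ≤ η / 2 * y := mul_le_mul_of_nonneg_left h2 (by linarith)
    nlinarith

theorem XSP_thm (h1 : GCOStmt) : XSPStmt := by
  intro V _ G p w r a e C η W P U hprm hstr he he1 hCB hW hη hη1 L hL
  classical
  have hLc := (mem_clq G).1 hL
  have hXW : un P ⊆ W := by
    intro u hu
    rw [un, mem_biUnion] at hu
    obtain ⟨i, _, hi⟩ := hu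
    exact (hstr.cov u).2 (Or.inr ⟨i, hi⟩)
  have hWu : W = un P ∪ U := by
    ext u
    rw [mem_union, hstr.cov u, un, mem_biUnion]
    constructor
    · rintro (h | ⟨i, h⟩)
      · exact Or.inr h
      · exact Or.inl ⟨i, mem_univ _, h⟩
    · rintro (⟨i, _, h⟩ | h)
      · exact Or.inr ⟨i, h⟩
      · exact Or.inl h
  have hdis : Disjoint (un P) U := by
    rw [un, disjoint_biUnion_left]
    intro i _
    exact hstr.disU i
  obtain ⟨g1, -⟩ := h1 p w r hprm
  have hnb : ∀ z ∈ W, (nb G L z).card ≤ p + 2 := fun z hz =>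
    XSP_nb_le G p W L hCB (hLc.1.trans hXW) hLc.2.1 hLc.2.2 z hz
  have hm : 0 ≤ mm G p r (un P) L := by
    unfold mm
    exact sum_nonneg fun z hz => (g1 _ (hnb z (hXW hz))).2.2.1
  have hUW : U ⊆ W := fun z hz => (hstr.cov z).2 (Or.inl hz)
  have hy : 0 ≤ ∑ z ∈ U, ww p r (nb G L z).card :=
    sum_nonneg fun z hz => (g1 _ (hnb z (hUW hz))).1
  have hXX : XX G p r a W L = ((((p + 3) * a + r : ℕ) : ℝ) - (un P).card) + mm G p r (un P) L -
      ∑ z ∈ U, ww p r (nb G L z).card := by
    unfold XX mm ww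
    rw [sum_sub_distrib, sum_const, nsmul_eq_mul, mul_one]
    conv_lhs => rw [hWu]
    rw [sum_union hdis, card_union_of_disjoint hdis]
    push_cast
    ring
  rw [hXX]
  exact XSP_num _ _ _ _ _ hm hy hη hη1

end Pool.GT7
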