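import Mathlib

/-!
# Graphs which attain the maximal density of `t`-cliques: definitions
-/

set_option autoImplicit false

namespace Pool.MC6

/-- The graph `H` has maximum degree at most `Δ` and no clique with `ω + 1` vertices. -/
def Admissible (Δ ω : ℕ) {n : ℕ} (H : SimpleGraph (Fin n)) : Prop :=
  (∀ v, (H.neighborSet v).ncard ≤ Δ) ∧ H.CliqueFree (ω + 1)

/-- The number of cliques with `t` vertices. -/
noncomputable def cliques (t : ℕ) {n : ℕ} (H : SimpleGraph (Fin n)) : ℕ :=
  {s : Finset (Fin n) | H.IsNClique t s}.ncard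

/-- The graph `R` attains the maximum of the number of `t`-cliques per vertex among all nonempty graphs
with maximum degree at most `Δ` and no clique with `ω + 1` vertices. -/
def Attains (t Δ ω : ℕ) {n : ℕ} (R : SimpleGraph (Fin n)) : Prop :=
  0 < n ∧ Admissible Δ ω R ∧ ∀ m : ℕ, 0 < m → ∀ H : SimpleGraph (Fin m), Admissible Δ ω H →
    cliques t H * n ≤ cliques t R * m

end Pool.MC6
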