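import Pool.Agent.H60.GT.Fin
import Pool.Agent.H60.GT.XSP
import Pool.Agent.H10.GT.MLB
import Pool.Agent.H10.GT.CZB
import Pool.Agent.H2.GT.LIS
import Pool.Agent.H2.GT.MMC
import Pool.Agent.H14.GT.PHI
import Pool.Agent.H21.GT.SUM
import Pool.Agent.H23.GT.STC
import Pool.Agent.H26.GT.KUM
import Pool.Agent.H31.GT.LMB
import Pool.Agent.H31.GT.SWL
import Pool.Agent.H34.GT.LIA
import Pool.Agent.H36.GT.XGR
import Pool.Agent.H44.GT.TCT
import Pool.Agent.H45.GT.DBL
import Pool.Agent.H46.GT.CZA
import Pool.Agent.H47.GT.NUX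
import Pool.Agent.H49.GT.KU2
import Pool.Agent.H54.GT.SIZ
import Pool.Agent.H55.GT.CCK
import Pool.Agent.H62.GT.CPL
import Pool.Agent.H64.GT.GLD
import Pool.Agent.H66.GT.GCO
import Pool.Agent.H67.GT.SWP
import Pool.Agent.H67.GT.TTR
import Pool.Agent.H70.GT.CZC
import Pool.Agent.H78.GT.EXB
import Pool.Agent.H80.GT.EST
import Pool.Agent.H83.GT.KZC
import Pool.Agent.H83.GT.PRC
import Pool.Agent.H86.GT.NET
import Pool.Agent.H89.GT.DKU
import Pool.Agent.H91.GT.GRD
import Pool.Agent.H93.GT.DML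

/-!
# All rows of the board `gt7`
-/

set_option autoImplicit false

open Finset

namespace Pool.GT7

open Pool.KQ

theorem lmb_all : LMBStmt := LMB_thm TTR_thm

theorem swl_all : SWLStmt := SWL_thm EST_thm

theorem siz_all : SIZStmt := SIZ_thm (NUX_thm TTR_thm) swl_all lmb_all

theorem xgr_all : XGRStmt := XGR_thm swl_all EST_thm lmb_all

theorem gld_all : GLDStmt := GLD_thm PHI_thm TTR_thm lmb_all

theorem tct_all : TCTStmt := TCT_thm EST_thm

theorem prc_all : PRCStmt := PRC_thm KZC_thm prt amg trv_thm brk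

theorem dbl_all : DBLStmt := DBL_thm GRD_thm

theorem exb_all : EXBStmt := EXB_thm trv_thm brk

theorem cck_all : CCKStmt := CCK_thm GRD_thm GCO_thm

theorem csa_all : CSAStmt := csa

theorem csc_all : CSCStmt := csc csa (csb trv_thm brk) trv_thm

theorem swp_all : SWPStmt := SWP_thm csc_all cck_all

theorem sum_all : SUMStmt := SUM_thm GCO_thm cck_all

theorem cza_all : CZAStmt := CZA_thm csa_all cck_all sum_all dbl_all

theorem ku2_all : KU2Stmt := KU2_thm dbl_all GCO_thm cck_all trv_thm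

theorem mlb_all : MLBStmt := MLB_thm trv_thm GCO_thm

theorem kum_all : KUMStmt := KUM_thm CPL_thm GRD_thm

theorem xsp_all : XSPStmt := XSP_thm GCO_thm

theorem czb_all : CZBStmt := CZB_thm trv_thm brk cck_all sum_all exb_all swp_all

theorem czc_all : CZCStmt := CZC_thm cza_all czb_all cck_all

theorem stc_all : STCStmt := STC_thm MMC_thm prc_all (rea (rpi brk))

theorem net_all : NETStmt := NET_thm mlb_all kum_all brk trv_thm lmb_all

theorem lis_all : LISStmt :=
  LIS_thm czc_all cck_all ku2_all DKU_thm DML_thm xsp_all net_all siz_all xgr_all lmb_all GCO_thm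
    trv_thm

theorem fnl_all : FNLStmt :=
  FNL_thm (LIA_thm lis_all stc_all lmb_all TTR_thm) gld_all tct_all

end Pool.GT7
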