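import Pool.Agent.H60.GT.Fin
import Pool.Agent.H7.GX.Stmts
import Pool.Agent.H7.GY.Stmts

/-!
# The number of `t`-cliques, `t ≤ ω`, more residues: one statement
-/

set_option autoImplicit false

open Finset

namespace Pool.GT7

/-- The upper bound for `a ≥ a₀`. -/
def UpA (p w r a₀ : ℕ) : Prop :=
  ∀ a ≥ a₀, ∀ (m : ℕ) (H : SimpleGraph (Fin m)),
    (∀ v, (H.neighborSet v).ncard ≤ (p + 3) * a + r) → H.CliqueFree (p + 5) →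
      {s : Finset (Fin m) | H.IsNClique (w + 3) s}.ncard * ((p + 4) * a + r) ≤
        {s : Finset (Fin ((p + 4) * a + r)) |
          (SimpleGraph.turanGraph ((p + 4) * a + r) (p + 4)).IsNClique (w + 3) s}.ncard * m

/-- The conditions on `t < ω` and `r`. -/
def Cd (t ω r : ℕ) : Prop :=
  (r + 2 ≤ t ∧ r + 4 ≤ ω) ∨ (t = 3 ∧ 3 * r < ω - 1) ∨ (4 ≤ t ∧ 2 * r < ω - 1) ∨
    (5 ≤ t ∧ t * r ^ (t - 2) ≤ (ω - 1) ^ (t - 2) ∧
      2 * r * (ω - 1) ≤ (ω - 2) * (t - 2) * (ω - 1 - r))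

theorem upb_all (hF : FNLStmt) (hX : Pool.GX7.FNXStmt) (h9 : Pool.GV7.FN9Stmt)
    (hY : Pool.GY7.FNYStmt) (t ω r : ℕ) (ht : 3 ≤ t) (htω : t < ω) (hr : 1 ≤ r)
    (h : Cd t ω r) : ∃ a₀ : ℕ, UpA (ω - 4) (t - 3) r a₀ := by
  obtain ⟨p, rfl⟩ : ∃ p, ω = p + 4 := ⟨ω - 4, by omega⟩
  obtain ⟨w, rfl⟩ : ∃ w, t = w + 3 := ⟨t - 3, by omega⟩
  have e1 : p + 4 - 4 = p := by omega
  have e2 : w + 3 - 3 = w := by omega
  have e3 : p + 4 - 1 = p + 3 := by omega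
  have e4 : p + 4 - 2 = p + 2 := by omega
  have e5 : w + 3 - 2 = w + 1 := by omega
  rw [e1, e2]
  unfold Cd at h
  rw [e3, e4, e5] at h
  have hprm : r ≤ w + 1 → r ≤ p → ∃ a₀ : ℕ, UpA p w r a₀ := fun h1 h2 =>
    hF p w r ⟨by omega, hr, h1, h2⟩
  rcases h with ⟨h1, h2⟩ | ⟨h1, h2⟩ | ⟨h1, h2⟩ | ⟨h1, h2, h3⟩
  · exact hprm (by omega) (by omega)
  · have hw : w = 0 := by omega
    rcases Nat.lt_or_ge r 2 with hr2 | hr2
    · exact hprm (by omega) (by omega)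
    · subst hw
      exact hX p r ⟨hr2, by omega⟩
  · rcases Nat.lt_or_ge r 2 with hr2 | hr2
    · exact hprm (by omega) (by omega)
    · exact h9 p w r ⟨by omega, by omega, hr2, by omega⟩
  · have hrp : r ≤ p := by
      by_contra hcon
      have hwp : w ≤ p := by omega
      rcases Nat.lt_or_ge r (p + 3) with hlt | hge
      · rcases Nat.lt_or_ge r (p + 2) with h5 | h5
        · have h6 : r = p + 1 := by omega
          subst h6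
          have h7 : p + 3 - (p + 1) = 2 := by omega
          rw [h7] at h3
          -- 2 (p+1)(p+3) ≤ (p+2)(w+1) 2
          nlinarith
        · have h6 : r = p + 2 := by omega
          subst h6
          have h7 : p + 3 - (p + 2) = 1 := by omega
          rw [h7] at h3
          nlinarith
      · have h7 : p + 3 - r = 0 := by omega
        rw [h7, mul_zero] at h3
        have : 0 < 2 * r * (p + 3) := by positivity
        omega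
    rcases Nat.lt_or_ge r (w + 2) with h4 | h4
    · exact hprm (by omega) hrp
    · exact hY p w r ⟨by omega, by omega, h4, hrp, by rw [← mul_assoc]; exact h3, h2⟩

/-- The conditions without the last line. -/
def Cd4 (t ω r : ℕ) : Prop :=
  (r + 2 ≤ t ∧ r + 4 ≤ ω) ∨ (t = 3 ∧ 3 * r < ω - 1) ∨ (4 ≤ t ∧ 2 * r < ω - 1)

theorem upb_four (hF : FNLStmt) (hX : Pool.GX7.FNXStmt) (h9 : Pool.GV7.FN9Stmt)
    (t ω r : ℕ) (ht : 3 ≤ t) (htω : t < ω) (hr : 1 ≤ r)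
    (h : Cd4 t ω r) : ∃ a₀ : ℕ, UpA (ω - 4) (t - 3) r a₀ := by
  obtain ⟨p, rfl⟩ : ∃ p, ω = p + 4 := ⟨ω - 4, by omega⟩
  obtain ⟨w, rfl⟩ : ∃ w, t = w + 3 := ⟨t - 3, by omega⟩
  have e1 : p + 4 - 4 = p := by omega
  have e2 : w + 3 - 3 = w := by omega
  have e3 : p + 4 - 1 = p + 3 := by omega
  rw [e1, e2]
  unfold Cd4 at h
  rw [e3] at h
  have hprm : r ≤ w + 1 → r ≤ p → ∃ a₀ : ℕ, UpA p w r a₀ := fun h1 h2 =>
    hF p w r ⟨by omega, hr, h1, h2⟩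
  rcases h with ⟨h1, h2⟩ | ⟨h1, h2⟩ | ⟨h1, h2⟩
  · exact hprm (by omega) (by omega)
  · have hw : w = 0 := by omega
    rcases Nat.lt_or_ge r 2 with hr2 | hr2
    · exact hprm (by omega) (by omega)
    · subst hw
      exact hX p r ⟨hr2, by omega⟩
  · rcases Nat.lt_or_ge r 2 with hr2 | hr2
    · exact hprm (by omega) (by omega)
    · exact h9 p w r ⟨by omega, by omega, hr2, by omega⟩

/-- The case `t < ω`. -/
theorem below5 (C : ℕ → ℕ → ℕ → Prop)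
    (hU : ∀ t ω r : ℕ, 3 ≤ t → t < ω → 1 ≤ r → C t ω r → ∃ a₀ : ℕ, UpA (ω - 4) (t - 3) r a₀) :
    ∃ E : ℕ → ℕ → ℕ → ℕ, ∀ t ω Δ : ℕ, 3 ≤ t → t < ω →
    1 ≤ Δ % (ω - 1) → C t ω (Δ % (ω - 1)) →
    E t ω (Δ % (ω - 1)) ≤ Δ / (ω - 1) →
    (∀ v, ((SimpleGraph.turanGraph (Δ + Δ / (ω - 1)) ω).neighborSet v).ncard ≤ Δ) ∧
    (SimpleGraph.turanGraph (Δ + Δ / (ω - 1)) ω).CliqueFree (ω + 1) ∧
    {s : Finset (Fin (Δ + Δ / (ω - 1))) |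
        (SimpleGraph.turanGraph (Δ + Δ / (ω - 1)) ω).IsNClique t s}.ncard =
      ∑ j ∈ range (t + 1), ((Δ % (ω - 1)).choose j * (Δ / (ω - 1) + 1) ^ j) *
        ((ω - Δ % (ω - 1)).choose (t - j) * (Δ / (ω - 1)) ^ (t - j)) ∧
    ∀ m : ℕ, 0 < m → ∀ H : SimpleGraph (Fin m),
      (∀ v, (H.neighborSet v).ncard ≤ Δ) → H.CliqueFree (ω + 1) →
        {s : Finset (Fin m) | H.IsNClique t s}.ncard * (Δ + Δ / (ω - 1)) ≤
          {s : Finset (Fin (Δ + Δ / (ω - 1))) |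
            (SimpleGraph.turanGraph (Δ + Δ / (ω - 1)) ω).IsNClique t s}.ncard * m := by
  classical
  choose A hA using hU
  refine ⟨fun t ω r => (if h : 3 ≤ t ∧ t < ω ∧ 1 ≤ r ∧ C t ω r then
    A t ω r h.1 h.2.1 h.2.2.1 h.2.2.2 else 0), ?_⟩
  intro t ω Δ ht htω hr1 hcd hE
  have hlt : Δ % (ω - 1) < ω - 1 := Nat.mod_lt _ (by omega)
  simp only at hE
  rw [dif_pos ⟨ht, htω, hr1, hcd⟩] at hE
  obtain ⟨N0, hN0, hup⟩ : ∃ N0, N0 ≤ Δ / (ω - 1) ∧ UpA (ω - 4) (t - 3) (Δ % (ω - 1)) N0 :=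
    ⟨_, hE, hA t ω (Δ % (ω - 1)) ht htω hr1 hcd⟩
  clear hE hcd
  obtain ⟨p, rfl⟩ : ∃ p, ω = p + 4 := ⟨ω - 4, by omega⟩
  obtain ⟨w, rfl⟩ : ∃ w, t = w + 3 := ⟨t - 3, by omega⟩
  have e1 : p + 4 - 1 = p + 3 := by omega
  have e2 : p + 4 - 4 = p := by omega
  have e3 : w + 3 - 3 = w := by omega
  rw [e1] at hr1 hup hlt hN0
  rw [e2, e3] at hup
  rw [e1]
  obtain ⟨a, ha⟩ : ∃ a, a = Δ / (p + 3) := ⟨_, rfl⟩
  obtain ⟨r, hr⟩ : ∃ r, r = Δ % (p + 3) := ⟨_, rfl⟩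
  rw [← hr] at hup
  rw [← ha] at hN0
  rw [← hr] at hr1 hlt
  rw [← ha, ← hr]
  have hΔ : Δ = (p + 3) * a + r := by
    have := Nat.div_add_mod Δ (p + 3)
    rw [← ha, ← hr] at this
    exact this.symm
  have hsum : Δ + a = (p + 4) * a + r := by
    rw [hΔ]
    ring
  have hcf : (SimpleGraph.turanGraph ((p + 4) * a + r) (p + 4)).CliqueFree (p + 5) :=
    SimpleGraph.turanGraph_cliqueFree (by omega)
  have hdeg := Pool.KQ.TURh.deg (p + 3) a r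
  have hct := count_tur p (w + 3) a r (by omega)
  clear ha hr
  subst hΔ
  rw [hsum]
  exact ⟨hdeg, hcf, hct, fun m _ H hd hc => hup a hN0 m H hd hc⟩

/-- Both cases. -/
theorem both5 (C : ℕ → ℕ → ℕ → Prop)
    (hU : ∀ t ω r : ℕ, 3 ≤ t → t < ω → 1 ≤ r → C t ω r → ∃ a₀ : ℕ, UpA (ω - 4) (t - 3) r a₀) :
    ∃ D : ℕ → ℕ → ℕ → ℕ,
    (∀ ω, D ω ω 1 = max (ω - 1) ((ω * (ω - 2) ^ 3 + 15) / 16)) ∧
    ∀ t ω Δ : ℕ, 3 ≤ t → t ≤ ω → 4 ≤ ω →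
    (t = ω ∨ 1 ≤ Δ % (ω - 1) ∧ C t ω (Δ % (ω - 1))) →
    D t ω (Δ % (ω - 1)) ≤ Δ / (ω - 1) →
    (∀ v, ((SimpleGraph.turanGraph (Δ + Δ / (ω - 1)) ω).neighborSet v).ncard ≤ Δ) ∧
    (SimpleGraph.turanGraph (Δ + Δ / (ω - 1)) ω).CliqueFree (ω + 1) ∧
    {s : Finset (Fin (Δ + Δ / (ω - 1))) |
        (SimpleGraph.turanGraph (Δ + Δ / (ω - 1)) ω).IsNClique t s}.ncard =
      ∑ j ∈ range (t + 1), ((Δ % (ω - 1)).choose j * (Δ / (ω - 1) + 1) ^ j) *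
        ((ω - Δ % (ω - 1)).choose (t - j) * (Δ / (ω - 1)) ^ (t - j)) ∧
    ∀ m : ℕ, 0 < m → ∀ H : SimpleGraph (Fin m),
      (∀ v, (H.neighborSet v).ncard ≤ Δ) → H.CliqueFree (ω + 1) →
        {s : Finset (Fin m) | H.IsNClique t s}.ncard * (Δ + Δ / (ω - 1)) ≤
          {s : Finset (Fin (Δ + Δ / (ω - 1))) |
            (SimpleGraph.turanGraph (Δ + Δ / (ω - 1)) ω).IsNClique t s}.ncard * m := by
  classical
  obtain ⟨D, hD1, hD⟩ := Pool.KR.final Pool.KR.upt_all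
  obtain ⟨E, hE⟩ := below5 C hU
  refine ⟨fun t ω r => if t = ω then D ω r else E t ω r, fun ω => ?_, ?_⟩
  · simp only [if_true]
    exact hD1 ω
  intro t ω Δ ht htω hω hcase ha
  by_cases hto : t = ω
  · subst hto
    simp only [if_true] at ha
    obtain ⟨h1, h2, h3, h4⟩ := hD t Δ hω ha
    refine ⟨h1, h2, ?_, h4⟩
    rw [h3]
    have hlt : Δ % (t - 1) < t - 1 := Nat.mod_lt _ (by omega)
    rw [sum_eq_single (Δ % (t - 1))]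
    · rw [Nat.choose_self, Nat.choose_self]
      ring
    · intro j hj hne
      rw [mem_range] at hj
      rcases Nat.lt_or_ge j (Δ % (t - 1)) with h | h
      · rw [Nat.choose_eq_zero_of_lt (show t - Δ % (t - 1) < t - j by omega)]
        ring
      · rw [Nat.choose_eq_zero_of_lt (show Δ % (t - 1) < j by omega)]
        ring
    · intro h
      exact absurd (mem_range.2 (by omega)) h
  · simp only [if_neg hto] at ha
    have hc := hcase.resolve_left hto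
    exact hE t ω Δ ht (by omega) hc.1 hc.2 ha

/-- The final statement without the last line of the bracket. -/
theorem both4 (hF : FNLStmt) (hX : Pool.GX7.FNXStmt) (h9 : Pool.GV7.FN9Stmt) :
    ∃ D : ℕ → ℕ → ℕ → ℕ,
    (∀ ω, D ω ω 1 = max (ω - 1) ((ω * (ω - 2) ^ 3 + 15) / 16)) ∧
    ∀ t ω Δ : ℕ, 3 ≤ t → t ≤ ω → 4 ≤ ω →
    (t = ω ∨ 1 ≤ Δ % (ω - 1) ∧ ((Δ % (ω - 1) + 2 ≤ t ∧ Δ % (ω - 1) + 4 ≤ ω) ∨
      (t = 3 ∧ 3 * (Δ % (ω - 1)) < ω - 1) ∨ (4 ≤ t ∧ 2 * (Δ % (ω - 1)) < ω - 1))) →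
    D t ω (Δ % (ω - 1)) ≤ Δ / (ω - 1) →
    (∀ v, ((SimpleGraph.turanGraph (Δ + Δ / (ω - 1)) ω).neighborSet v).ncard ≤ Δ) ∧
    (SimpleGraph.turanGraph (Δ + Δ / (ω - 1)) ω).CliqueFree (ω + 1) ∧
    {s : Finset (Fin (Δ + Δ / (ω - 1))) |
        (SimpleGraph.turanGraph (Δ + Δ / (ω - 1)) ω).IsNClique t s}.ncard =
      ∑ j ∈ range (t + 1), ((Δ % (ω - 1)).choose j * (Δ / (ω - 1) + 1) ^ j) *
        ((ω - Δ % (ω - 1)).choose (t - j) * (Δ / (ω - 1)) ^ (t - j)) ∧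
    ∀ m : ℕ, 0 < m → ∀ H : SimpleGraph (Fin m),
      (∀ v, (H.neighborSet v).ncard ≤ Δ) → H.CliqueFree (ω + 1) →
        {s : Finset (Fin m) | H.IsNClique t s}.ncard * (Δ + Δ / (ω - 1)) ≤
          {s : Finset (Fin (Δ + Δ / (ω - 1))) |
            (SimpleGraph.turanGraph (Δ + Δ / (ω - 1)) ω).IsNClique t s}.ncard * m   := both5 Cd4 (upb_four hF hX h9)

/-- The final statement. -/
theorem both_all (hF : FNLStmt) (hX : Pool.GX7.FNXStmt) (h9 : Pool.GV7.FN9Stmt)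
    (hY : Pool.GY7.FNYStmt) :
    ∃ D : ℕ → ℕ → ℕ → ℕ,
    (∀ ω, D ω ω 1 = max (ω - 1) ((ω * (ω - 2) ^ 3 + 15) / 16)) ∧
    ∀ t ω Δ : ℕ, 3 ≤ t → t ≤ ω → 4 ≤ ω →
    (t = ω ∨ 1 ≤ Δ % (ω - 1) ∧ ((Δ % (ω - 1) + 2 ≤ t ∧ Δ % (ω - 1) + 4 ≤ ω) ∨
      (t = 3 ∧ 3 * (Δ % (ω - 1)) < ω - 1) ∨ (4 ≤ t ∧ 2 * (Δ % (ω - 1)) < ω - 1) ∨
      (5 ≤ t ∧ t * (Δ % (ω - 1)) ^ (t - 2) ≤ (ω - 1) ^ (t - 2) ∧
        2 * (Δ % (ω - 1)) * (ω - 1) ≤ (ω - 2) * (t - 2) * (ω - 1 - Δ % (ω - 1))))) →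
    D t ω (Δ % (ω - 1)) ≤ Δ / (ω - 1) →
    (∀ v, ((SimpleGraph.turanGraph (Δ + Δ / (ω - 1)) ω).neighborSet v).ncard ≤ Δ) ∧
    (SimpleGraph.turanGraph (Δ + Δ / (ω - 1)) ω).CliqueFree (ω + 1) ∧
    {s : Finset (Fin (Δ + Δ / (ω - 1))) |
        (SimpleGraph.turanGraph (Δ + Δ / (ω - 1)) ω).IsNClique t s}.ncard =
      ∑ j ∈ range (t + 1), ((Δ % (ω - 1)).choose j * (Δ / (ω - 1) + 1) ^ j) *
        ((ω - Δ % (ω - 1)).choose (t - j) * (Δ / (ω - 1)) ^ (t - j)) ∧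
    ∀ m : ℕ, 0 < m → ∀ H : SimpleGraph (Fin m),
      (∀ v, (H.neighborSet v).ncard ≤ Δ) → H.CliqueFree (ω + 1) →
        {s : Finset (Fin m) | H.IsNClique t s}.ncard * (Δ + Δ / (ω - 1)) ≤
          {s : Finset (Fin (Δ + Δ / (ω - 1))) |
            (SimpleGraph.turanGraph (Δ + Δ / (ω - 1)) ω).IsNClique t s}.ncard * m   := both5 Cd (upb_all hF hX h9 hY)

end Pool.GT7
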