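import Pool.Agent.H60.GT.All
import Pool.Agent.H60.GT.Fin5
import Pool.Agent.H1.GU.PHB
import Pool.Agent.H10.GY.NUBY
import Pool.Agent.H16.GY.GCY
import Pool.Agent.H17.GV.NDM9
import Pool.Agent.H2.GX.FNX
import Pool.Agent.H2.GX.NDMX
import Pool.Agent.H26.GU.XSP0
import Pool.Agent.H26.GV.NUB9
import Pool.Agent.H27.GY.PRG
import Pool.Agent.H3.GU.ZYG
import Pool.Agent.H31.GX.BDAX
import Pool.Agent.H31.GX.GCX
import Pool.Agent.H31.GX.NDBX
import Pool.Agent.H33.GU.PHI0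
import Pool.Agent.H33.GY.PAYY
import Pool.Agent.H36.GU.NUX0
import Pool.Agent.H46.GV.BDA9
import Pool.Agent.H48.GU.SPL
import Pool.Agent.H49.GU.SIZ0
import Pool.Agent.H49.GV.BUD9
import Pool.Agent.H49.GY.BUDY
import Pool.Agent.H50.GV.PAY9
import Pool.Agent.H52.GX.SUMX
import Pool.Agent.H53.GU.PRF
import Pool.Agent.H54.GU.MLB0
import Pool.Agent.H54.GV.KU9
import Pool.Agent.H54.GX.GGPX
import Pool.Agent.H54.GY.SUMY
import Pool.Agent.H56.GV.LIP9
import Pool.Agent.H56.GX.LIPX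
import Pool.Agent.H56.GY.LIPY
import Pool.Agent.H60.GV.NET9
import Pool.Agent.H63.GU.LMB0
import Pool.Agent.H63.GX.PAYX
import Pool.Agent.H65.GU.GCO0
import Pool.Agent.H65.GU.GLD0
import Pool.Agent.H65.GU.XGR0
import Pool.Agent.H65.GY.NYA
import Pool.Agent.H67.GU.CCK0
import Pool.Agent.H67.GV.GC9
import Pool.Agent.H67.GX.BUDX
import Pool.Agent.H70.GY.FNY
import Pool.Agent.H71.GV.FN9
import Pool.Agent.H71.GY.NYB
import Pool.Agent.H78.GY.KUY
import Pool.Agent.H81.GY.BDAY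
import Pool.Agent.H85.GY.NDBY
import Pool.Agent.H86.GV.NDB9
import Pool.Agent.H86.GV.SUM9
import Pool.Agent.H87.GY.NDMY
import Pool.Agent.H91.GV.GGP9
import Pool.Agent.H91.GY.GGPY

/-!
# All rows of the boards `gu8` (as far as needed), `gv9`, `gx10`, `gy11`
-/

set_option autoImplicit false

open Finset

namespace Pool.GU7

open Pool.GT7

theorem lmb0_all : LMB0Stmt := LMB0_thm TTR_thm

theorem siz0_all : SIZ0Stmt := SIZ0_thm (NUX0_thm TTR_thm) swl_all lmb0_all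

theorem xgr0_all : XGR0Stmt := XGR0_thm swl_all EST_thm lmb0_all

theorem gld0_all : GLD0Stmt := GLD0_thm PHI0_thm TTR_thm lmb0_all

theorem cck0_all : CCK0Stmt := CCK0_thm GRD_thm GCO0_thm

theorem xsp0_all : XSP0Stmt := XSP0_thm GCO0_thm

theorem mlb0_all : MLB0Stmt := MLB0_thm Pool.KQ.trv_thm GCO0_thm

theorem prf_all : PRFStmt :=
  PRF_thm Pool.KQ.trv_thm Pool.KQ.brk exb_all (Pool.KR.nms Pool.KQ.brk)

theorem phb_all : PHBStmt := PHB_thm lmb0_all TTR_thm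

end Pool.GU7

namespace Pool.GV7

open Pool.GT7 Pool.GU7

theorem net9_all : NET9Stmt := NET9_thm mlb0_all kum_all Pool.KQ.brk Pool.KQ.trv_thm lmb0_all

theorem ndb9_all : NDB9Stmt := NDB9_thm GC9_thm prf_all cck0_all GCO0_thm

theorem ndm9_all : NDM9Stmt := NDM9_thm GC9_thm prf_all cck0_all GCO0_thm

theorem bda9_all : BDA9Stmt := BDA9_thm SPL_thm NUB9_thm ZYG_thm TTR_thm

theorem ku9_all : KU9Stmt := KU9_thm dbl_all GCO0_thm cck0_all Pool.KQ.trv_thm

theorem bud9_all : BUD9Stmt := BUD9_thm ndm9_all ndb9_all bda9_all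

theorem lip9_all : LIP9Stmt :=
  LIP9_thm cck0_all ku9_all DKU_thm DML_thm xsp0_all net9_all siz0_all xgr0_all lmb0_all GCO0_thm
    GC9_thm Pool.KQ.trv_thm

theorem sum9_all : SUM9Stmt :=
  SUM9_thm phb_all bud9_all lip9_all (GGP9_thm Pool.KR.stg_all) PAY9_thm stc_all MMC_thm
    cck0_all TTR_thm

theorem fn9_all : FN9Stmt := FN9_thm sum9_all gld0_all tct_all

end Pool.GV7

namespace Pool.GX7

open Pool.GT7 Pool.GU7 Pool.GV7

theorem ndmx_all : NDMXStmt := NDMX_thm GCX_thm prf_all cck0_all GCO0_thm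

theorem ndbx_all : NDBXStmt := NDBX_thm GCX_thm prf_all cck0_all GCO0_thm

theorem budx_all : BUDXStmt := BUDX_thm ndmx_all ndbx_all (BDAX_thm ZYG_thm TTR_thm)

theorem lipx_all : LIPXStmt :=
  LIPX_thm cck0_all DKU_thm DML_thm xsp0_all net9_all siz0_all xgr0_all lmb0_all GCO0_thm
    GCX_thm Pool.KQ.trv_thm

theorem sumx_all : SUMXStmt :=
  SUMX_thm phb_all budx_all lipx_all (GGPX_thm Pool.KR.stg_all) PAYX_thm stc_all MMC_thm
    cck0_all TTR_thm

theorem fnx_all : FNXStmt := FNX_thm sumx_all gld0_all tct_all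

end Pool.GX7

namespace Pool.GY7

open Pool.GT7 Pool.GU7 Pool.GV7

theorem prg_all : PRGStmt := PRG_thm Pool.KQ.trv_thm (Pool.KR.nms Pool.KQ.brk)

theorem ndmy_all : NDMYStmt := NDMY_thm NYA_thm prg_all prf_all ZYG_thm cck0_all GCO0_thm

theorem ndby_all : NDBYStmt := NDBY_thm GCY_thm prf_all cck0_all GCO0_thm

theorem bday_all : BDAYStmt := BDAY_thm SPL_thm NUBY_thm NYB_thm ZYG_thm TTR_thm

theorem kuy_all : KUYStmt := KUY_thm dbl_all GCO0_thm cck0_all Pool.KQ.trv_thm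

theorem budy_all : BUDYStmt := BUDY_thm ndmy_all ndby_all bday_all

theorem lipy_all : LIPYStmt :=
  LIPY_thm cck0_all kuy_all DKU_thm DML_thm xsp0_all net9_all siz0_all xgr0_all lmb0_all GCO0_thm
    GCY_thm Pool.KQ.trv_thm

theorem sumy_all : SUMYStmt :=
  SUMY_thm phb_all budy_all lipy_all (GGPY_thm Pool.KR.stg_all) PAYY_thm stc_all MMC_thm
    cck0_all TTR_thm

theorem fny_all : FNYStmt := FNY_thm sumy_all gld0_all tct_all GCY_thm

end Pool.GY7
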