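import Pool.Agent.H7.ME.Stmts

/-!
# Statements of the boards `jb`, `ia` which follow from the ones of `me`
-/

set_option autoImplicit false

open Finset

namespace Pool.MC6

theorem prW_of {p r : ℕ} (h : Pool.JB7.PrW p r) : Pool.ME7.PrW p r := by
  have h1 := h.p2
  have h2 := h.rp
  exact ⟨by omega, h.r1, by omega⟩

theorem fndw_red (h : Pool.ME7.FNDWStmt) : Pool.JB7.FNDWStmt :=
  fun p r hP => h p r (prW_of hP)

theorem corw_red (h : Pool.ME7.CORWStmt) : Pool.JB7.CORWStmt :=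
  fun p r hP => h p r (prW_of hP)

theorem expw_red (h : Pool.ME7.EXPWStmt) : Pool.JB7.EXPWStmt :=
  fun p r hP => h p r (prW_of hP)

theorem navw_red (h : Pool.ME7.NAVWStmt) : Pool.JB7.NAVWStmt :=
  fun p r hP => h p r (prW_of hP)

theorem manw_red (h : Pool.ME7.MANWStmt) : Pool.JB7.MANWStmt :=
  fun p r hP => h p r (prW_of hP)

theorem rfgw_red (h : Pool.ME7.RFGWStmt) : Pool.JB7.RFGWStmt :=
  fun p r a hP => h p r a (prW_of hP)

theorem fnt_red (h : Pool.ME7.FNTStmt) : Pool.IA7.FNTStmt := by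
  intro p w r hP
  have h1 := hP.w1
  have h2 := hP.rp
  have h3 : (p + 2).choose (w + 1) * ((w + 1) * (p + 3 - r)) < (p + 2).choose (w + 1) * (2 * r) := by
    have := hP.rs
    omega
  have h4 : (w + 1) * (p + 3 - r) < 2 * r := Nat.lt_of_mul_lt_mul_left h3
  have h5 : 2 * 3 ≤ (w + 1) * (p + 3 - r) := Nat.mul_le_mul (by omega) (by omega)
  exact h p w r ⟨h1, hP.wp, by omega, by omega, hP.rs⟩

end Pool.MC6
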