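import Pool.Agent.H60.GT.Red
import Pool.Agent.H7.NG.Stmts

/-!
# Statements of the boards `kc`, `me` which follow from the ones of `ng`
-/

set_option autoImplicit false

open Finset

namespace Pool.MC6

theorem nvv_red (h : Pool.NG7.NVXStmt) : Pool.KC7.NVVStmt := by
  intro p w r hP
  have h1 := hP.pz.rb
  have h2 := hP.pz.rp
  exact h p w r ⟨hP.w1, hP.wp, h1, by omega, by omega⟩

theorem nvt_red (h : Pool.NG7.NVXStmt) : Pool.ME7.NVTStmt := by
  intro p w r hP
  have h1 := hP.w1
  have h2 := hP.rp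
  have h3 : (p + 2).choose (w + 1) * ((w + 1) * (p + 3 - r)) < (p + 2).choose (w + 1) * (2 * r) := by
    have := hP.rs
    omega
  have h4 : (w + 1) * (p + 3 - r) < 2 * r := Nat.lt_of_mul_lt_mul_left h3
  have h5 : 2 * (p + 3 - r) ≤ (w + 1) * (p + 3 - r) := Nat.mul_le_mul_right _ (by omega)
  exact h p w r ⟨h1, hP.wp, by omega, h2, hP.p2⟩

end Pool.MC6
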