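import Pool.Agent.H60.GT.All5b
import Pool.Agent.H1.HZ.BLE
import Pool.Agent.H1.HZ.GRE
import Pool.Agent.H1.M17.LOQ
import Pool.Agent.H1.M17.WSG
import Pool.Agent.H1.NG.FNQ
import Pool.Agent.H1.NG.XDM
import Pool.Agent.H10.HZ.COR
import Pool.Agent.H10.IA.MOD
import Pool.Agent.H12.JB.FNG
import Pool.Agent.H12.ME.FNZ
import Pool.Agent.H14.HZ.SPX
import Pool.Agent.H17.KC.NUJ
import Pool.Agent.H17.KC.ZSJ
import Pool.Agent.H17.LD.MLG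
import Pool.Agent.H17.LD.PHI0
import Pool.Agent.H18.JB.GCG
import Pool.Agent.H18.KC.GCJ
import Pool.Agent.H18.LD.GCO0
import Pool.Agent.H2.KC.WLJ
import Pool.Agent.H2.LD.CST
import Pool.Agent.H21.JB.NDG
import Pool.Agent.H21.LD.EDU
import Pool.Agent.H21.ME.LOT
import Pool.Agent.H22.KC.LOJ
import Pool.Agent.H22.NG.MNX
import Pool.Agent.H23.JB.REG
import Pool.Agent.H23.ME.PWN
import Pool.Agent.H23.MF.NETE
import Pool.Agent.H24.NG.RFX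
import Pool.Agent.H25.KC.BDJ
import Pool.Agent.H25.LD.AUG
import Pool.Agent.H25.ME.COBW
import Pool.Agent.H25.MF.KUE
import Pool.Agent.H27.JB.BDG
import Pool.Agent.H27.KC.WGJ
import Pool.Agent.H27.ME.WSV
import Pool.Agent.H27.MF.FNE
import Pool.Agent.H29.HZ.REF
import Pool.Agent.H3.JB.BUG
import Pool.Agent.H3.ME.DLBW
import Pool.Agent.H33.HZ.COB
import Pool.Agent.H36.HZ.EDU
import Pool.Agent.H36.IA.UCL
import Pool.Agent.H38.JB.NDC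
import Pool.Agent.H38.MF.NDE
import Pool.Agent.H41.HZ.FND
import Pool.Agent.H41.MF.GGE
import Pool.Agent.H44.HZ.MLG
import Pool.Agent.H44.JB.LOG
import Pool.Agent.H45.KC.BUJ
import Pool.Agent.H46.HZ.COA
import Pool.Agent.H46.IA.CRT
import Pool.Agent.H46.KC.BKJ
import Pool.Agent.H46.ME.NS2W
import Pool.Agent.H46.MF.NBE
import Pool.Agent.H48.HZ.ARR
import Pool.Agent.H48.ME.MANW
import Pool.Agent.H49.JB.WLG
import Pool.Agent.H50.KC.NBJ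
import Pool.Agent.H50.ME.RFGW
import Pool.Agent.H50.MF.NUG
import Pool.Agent.H51.KC.NUA
import Pool.Agent.H51.ME.ZST
import Pool.Agent.H51.NG.NTX
import Pool.Agent.H52.ME.CME
import Pool.Agent.H53.HZ.KUB
import Pool.Agent.H53.KC.GGJ
import Pool.Agent.H53.ME.CORW
import Pool.Agent.H53.NG.XCO
import Pool.Agent.H55.IA.XLO
import Pool.Agent.H55.MF.SME
import Pool.Agent.H56.ME.CQBW
import Pool.Agent.H56.MF.NUE
import Pool.Agent.H60.GT.Red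
import Pool.Agent.H60.GT.Red2
import Pool.Agent.H7.NG.CQX
import Pool.Agent.H62.ME.NAVW
import Pool.Agent.H62.MF.NUF
import Pool.Agent.H63.HZ.CRS
import Pool.Agent.H63.IA.KBT
import Pool.Agent.H67.ME.COAW
import Pool.Agent.H70.KC.NCJ
import Pool.Agent.H70.MF.GCE
import Pool.Agent.H71.ME.NS1W
import Pool.Agent.H74.ME.WGT
import Pool.Agent.H74.NG.NVX
import Pool.Agent.H76.ME.WVT
import Pool.Agent.H78.ME.ZSU
import Pool.Agent.H78.MF.BUE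
import Pool.Agent.H78.NG.CMQ
import Pool.Agent.H80.ME.PWT
import Pool.Agent.H80.MF.BDE
import Pool.Agent.H81.JB.WGG
import Pool.Agent.H81.LD.XLO
import Pool.Agent.H83.ME.DLC
import Pool.Agent.H84.JB.ZSM
import Pool.Agent.H85.IA.CMP
import Pool.Agent.H85.KC.BGJ
import Pool.Agent.H85.ME.FNDW
import Pool.Agent.H86.JB.BLG
import Pool.Agent.H86.MF.LPE
import Pool.Agent.H86.MF.PYE
import Pool.Agent.H89.KC.NDJ
import Pool.Agent.H89.ME.BLK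
import Pool.Agent.H89.ME.EXPW
import Pool.Agent.H93.JB.GGG
import Pool.Agent.H93.JB.NBG
import Pool.Agent.H97.HZ.CQS
import Pool.Agent.H97.ME.BKT

/-!
# All rows of the boards `hz12`, `ia13`, `jb14`, `kc15`, `ld16`, `me17`, `mf18`, `ng19`
-/

set_option autoImplicit false

open Finset

open Pool.GT7 Pool.GU7

theorem Pool.JB7.gcg_all : Pool.JB7.GCGStmt :=
  Pool.JB7.gcg_thm

theorem Pool.JB7.reg_all : Pool.JB7.REGStmt :=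
  Pool.JB7.reg_thm

theorem Pool.HZ7.mlg_all : Pool.HZ7.MLGStmt :=
  Pool.HZ7.MLG_thm Pool.KQ.trv_thm GCO0_thm

theorem Pool.HZ7.edu_all : Pool.HZ7.EDUStmt :=
  Pool.HZ7.edu_thm

theorem Pool.HZ7.spx_all : Pool.HZ7.SPXStmt :=
  Pool.HZ7.spx_thm

theorem Pool.JB7.zsm_all : Pool.JB7.ZSMStmt :=
  Pool.JB7.zsm_thm Pool.JB7.gcg_all exb_all Pool.KQ.trv_thm Pool.KQ.brk

theorem Pool.JB7.log_all : Pool.JB7.LOGStmt :=
  Pool.JB7.LOG_thm Pool.JB7.gcg_all Pool.HZ7.mlg_all Pool.HZ7.edu_all Pool.HZ7.spx_all Pool.JB7.zsm_all Pool.KQ.trv_thm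

theorem Pool.JB7.ndc_all : Pool.JB7.NDCStmt :=
  Pool.JB7.ndc_thm GCO0_thm

theorem Pool.JB7.wlg_all : Pool.JB7.WLGStmt :=
  Pool.JB7.WLG_thm Pool.JB7.gcg_all stc_all MMC_thm Pool.JB7.reg_all Pool.JB7.log_all Pool.JB7.ndc_all cck0_all TTR_thm ZYG_thm

theorem Pool.JB7.ndg_all : Pool.JB7.NDGStmt :=
  Pool.JB7.ndg_thm Pool.JB7.gcg_all prf_all cck0_all GCO0_thm

theorem Pool.JB7.nbg_all : Pool.JB7.NBGStmt :=
  Pool.JB7.NBG_thm Pool.JB7.gcg_all prf_all cck0_all GCO0_thm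

theorem Pool.JB7.bdg_all : Pool.JB7.BDGStmt :=
  Pool.JB7.BDG_thm ZYG_thm TTR_thm

theorem Pool.JB7.bug_all : Pool.JB7.BUGStmt :=
  Pool.JB7.bug_thm Pool.JB7.gcg_all Pool.JB7.ndg_all Pool.JB7.nbg_all Pool.JB7.bdg_all

theorem Pool.JB7.ggg_all : Pool.JB7.GGGStmt :=
  Pool.JB7.GGG_thm Pool.JB7.gcg_all Pool.KR.stg_all cck0_all

theorem Pool.JB7.wgg_all : Pool.JB7.WGGStmt :=
  Pool.JB7.wgg_thm Pool.JB7.gcg_all Pool.JB7.wlg_all Pool.JB7.bug_all Pool.JB7.ggg_all PHI0_thm GCO0_thm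

theorem Pool.ME7.fndw_all : Pool.ME7.FNDWStmt :=
  Pool.ME7.fndw_thm Pool.KQ.trv_thm Pool.KQ.brk

theorem Pool.JB7.fndw_all : Pool.JB7.FNDWStmt :=
  Pool.MC6.fndw_red Pool.ME7.fndw_all

theorem Pool.HZ7.arr_all : Pool.HZ7.ARRStmt :=
  Pool.HZ7.arr_thm

theorem Pool.ME7.coaw_all : Pool.ME7.COAWStmt :=
  Pool.ME7.COAW_thm

theorem Pool.ME7.cobw_all : Pool.ME7.COBWStmt :=
  Pool.ME7.COBW_thm Pool.ME7.coaw_all

theorem Pool.HZ7.gre_all : Pool.HZ7.GREStmt :=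
  Pool.HZ7.gre_thm

theorem Pool.ME7.corw_all : Pool.ME7.CORWStmt :=
  Pool.ME7.corw_thm Pool.ME7.coaw_all Pool.ME7.cobw_all Pool.HZ7.gre_all

theorem Pool.JB7.corw_all : Pool.JB7.CORWStmt :=
  Pool.MC6.corw_red Pool.ME7.corw_all

theorem Pool.ME7.expw_all : Pool.ME7.EXPWStmt :=
  Pool.ME7.expw_thm Pool.HZ7.gre_all

theorem Pool.JB7.expw_all : Pool.JB7.EXPWStmt :=
  Pool.MC6.expw_red Pool.ME7.expw_all

theorem Pool.ME7.navw_all : Pool.ME7.NAVWStmt :=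
  Pool.ME7.navw_thm TTR_thm

theorem Pool.JB7.navw_all : Pool.JB7.NAVWStmt :=
  Pool.MC6.navw_red Pool.ME7.navw_all

theorem Pool.JB7.blg_all : Pool.JB7.BLGStmt :=
  Pool.JB7.blg_thm Pool.JB7.gcg_all Pool.JB7.wgg_all Pool.JB7.fndw_all Pool.HZ7.arr_all Pool.JB7.corw_all Pool.JB7.expw_all Pool.JB7.navw_all

theorem Pool.ME7.dlbw_all : Pool.ME7.DLBWStmt :=
  Pool.ME7.DLBW_thm

theorem Pool.HZ7.ble_all : Pool.HZ7.BLEStmt :=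
  Pool.HZ7.ble_thm

theorem Pool.HZ7.kub_all : Pool.HZ7.KUBStmt :=
  Pool.HZ7.KUB_thm Pool.HZ7.ble_all

theorem Pool.ME7.cqbw_all : Pool.ME7.CQBWStmt :=
  Pool.ME7.CQBW_thm ZYG_thm

theorem Pool.HZ7.cqs_all : Pool.HZ7.CQSStmt :=
  Pool.HZ7.cqs_thm

theorem Pool.HZ7.crs_all : Pool.HZ7.CRSStmt :=
  Pool.HZ7.crs_thm

theorem Pool.ME7.ns1w_all : Pool.ME7.NS1WStmt :=
  Pool.ME7.NS1W_thm EST_thm

theorem Pool.ME7.ns2w_all : Pool.ME7.NS2WStmt :=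
  Pool.ME7.ns2w_thm EST_thm TTR_thm

theorem Pool.ME7.manw_all : Pool.ME7.MANWStmt :=
  Pool.ME7.manw_thm Pool.ME7.dlbw_all Pool.HZ7.kub_all Pool.ME7.cqbw_all Pool.HZ7.cqs_all Pool.HZ7.crs_all Pool.ME7.ns1w_all Pool.ME7.ns2w_all

theorem Pool.JB7.manw_all : Pool.JB7.MANWStmt :=
  Pool.MC6.manw_red Pool.ME7.manw_all

theorem Pool.ME7.rfgw_all : Pool.ME7.RFGWStmt :=
  Pool.ME7.RFGW_thm EST_thm tct_all

theorem Pool.JB7.rfgw_all : Pool.JB7.RFGWStmt :=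
  Pool.MC6.rfgw_red Pool.ME7.rfgw_all

theorem Pool.JB7.fng_all : Pool.JB7.FNGStmt :=
  Pool.JB7.fng_thm Pool.JB7.gcg_all Pool.JB7.blg_all Pool.JB7.manw_all Pool.JB7.rfgw_all

theorem Pool.KC7.gcj_all : Pool.KC7.GCJStmt :=
  Pool.KC7.gcj_thm

theorem Pool.IA7.cmp_all : Pool.IA7.CMPStmt :=
  Pool.IA7.cmp_thm EST_thm

theorem Pool.IA7.ucl_all : Pool.IA7.UCLStmt :=
  Pool.IA7.ucl_thm

theorem Pool.IA7.xlo_all : Pool.IA7.XLOStmt :=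
  Pool.IA7.XLO_thm EST_thm swl_all

theorem Pool.KC7.zsj_all : Pool.KC7.ZSJStmt :=
  Pool.KC7.zsj_thm Pool.KC7.gcj_all exb_all Pool.KQ.trv_thm Pool.KQ.brk

theorem Pool.KC7.loj_all : Pool.KC7.LOJStmt :=
  Pool.KC7.loj_thm Pool.KC7.gcj_all Pool.HZ7.mlg_all Pool.IA7.cmp_all Pool.IA7.ucl_all Pool.IA7.xlo_all Pool.HZ7.spx_all Pool.KC7.zsj_all Pool.KQ.trv_thm

theorem Pool.KC7.ncj_all : Pool.KC7.NCJStmt :=
  Pool.KC7.ncj_thm Pool.KC7.gcj_all GCO0_thm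

theorem Pool.KC7.wlj_all : Pool.KC7.WLJStmt :=
  Pool.KC7.wlj_thm Pool.KC7.gcj_all stc_all MMC_thm Pool.JB7.reg_all Pool.KC7.loj_all Pool.KC7.ncj_all cck0_all TTR_thm ZYG_thm

theorem Pool.KC7.ndj_all : Pool.KC7.NDJStmt :=
  Pool.KC7.NDJ_thm Pool.KC7.gcj_all Pool.GY7.prg_all prf_all ZYG_thm cck0_all GCO0_thm

theorem Pool.KC7.nbj_all : Pool.KC7.NBJStmt :=
  Pool.KC7.NBJ_thm Pool.KC7.gcj_all prf_all cck0_all GCO0_thm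

theorem Pool.KC7.bgj_all : Pool.KC7.BGJStmt :=
  Pool.KC7.bgj_thm SPL_thm ZYG_thm TTR_thm

theorem Pool.KC7.nua_all : Pool.KC7.NUAStmt :=
  Pool.KC7.nua_thm

theorem Pool.KC7.nuj_all : Pool.KC7.NUJStmt :=
  Pool.KC7.nuj_thm Pool.KC7.nua_all

theorem Pool.KC7.bdj_all : Pool.KC7.BDJStmt :=
  Pool.KC7.bdj_thm Pool.KC7.bgj_all Pool.KC7.nuj_all

theorem Pool.KC7.buj_all : Pool.KC7.BUJStmt :=
  Pool.KC7.buj_thm Pool.KC7.gcj_all Pool.KC7.ndj_all Pool.KC7.nbj_all Pool.KC7.bdj_all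

theorem Pool.KC7.ggj_all : Pool.KC7.GGJStmt :=
  Pool.KC7.GGJ_thm Pool.KC7.gcj_all Pool.KR.stg_all cck0_all

theorem Pool.KC7.wgj_all : Pool.KC7.WGJStmt :=
  Pool.KC7.wgj_thm Pool.KC7.gcj_all Pool.KC7.wlj_all Pool.KC7.buj_all Pool.KC7.ggj_all PHI0_thm

theorem Pool.NG7.nvx_all : Pool.NG7.NVXStmt :=
  Pool.NG7.nvx_thm TTR_thm

theorem Pool.KC7.nvv_all : Pool.KC7.NVVStmt :=
  Pool.MC6.nvv_red Pool.NG7.nvx_all

theorem Pool.HZ7.fnd_all : Pool.HZ7.FNDStmt :=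
  Pool.HZ7.fnd_thm Pool.KQ.trv_thm Pool.KQ.brk

theorem Pool.HZ7.coa_all : Pool.HZ7.COAStmt :=
  Pool.HZ7.coa_thm

theorem Pool.HZ7.cob_all : Pool.HZ7.COBStmt :=
  Pool.HZ7.COB_thm Pool.HZ7.coa_all

theorem Pool.HZ7.cor_all : Pool.HZ7.CORStmt :=
  Pool.HZ7.cor_thm Pool.HZ7.coa_all Pool.HZ7.cob_all Pool.HZ7.gre_all

theorem Pool.KC7.bkj_all : Pool.KC7.BKJStmt :=
  Pool.KC7.bkj_thm Pool.KC7.gcj_all Pool.KC7.wgj_all Pool.KC7.nvv_all Pool.HZ7.fnd_all Pool.HZ7.arr_all Pool.HZ7.cor_all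

theorem Pool.HZ7.ref_all : Pool.HZ7.REFStmt :=
  Pool.HZ7.REF_thm Pool.KQ.trv_thm Pool.KQ.brk

theorem Pool.ME7.pwt_all : Pool.ME7.PWTStmt :=
  Pool.ME7.pwt_thm

theorem Pool.LD7.gco0_all : Pool.LD7.GCO0Stmt :=
  Pool.LD7.gco0_thm

theorem Pool.LD7.mlg_all : Pool.LD7.MLGStmt :=
  Pool.LD7.MLG_thm Pool.KQ.trv_thm Pool.LD7.gco0_all

theorem Pool.LD7.xlo_all : Pool.LD7.XLOStmt :=
  Pool.LD7.XLO_thm EST_thm swl_all

theorem Pool.ME7.zst_all : Pool.ME7.ZSTStmt :=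
  Pool.ME7.zst_thm Pool.ME7.pwt_all exb_all Pool.KQ.trv_thm

theorem Pool.ME7.lot_all : Pool.ME7.LOTStmt :=
  Pool.ME7.lot_thm Pool.ME7.pwt_all Pool.LD7.mlg_all Pool.IA7.cmp_all Pool.IA7.ucl_all Pool.LD7.xlo_all Pool.HZ7.spx_all Pool.ME7.zst_all Pool.KQ.trv_thm

theorem Pool.ME7.wvt_all : Pool.ME7.WVTStmt :=
  Pool.ME7.WVT_thm stc_all MMC_thm Pool.HZ7.ref_all Pool.ME7.lot_all Pool.ME7.pwt_all TTR_thm ZYG_thm

theorem Pool.LD7.phi0_all : Pool.LD7.PHI0Stmt :=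
  Pool.LD7.PHI0_thm

theorem Pool.ME7.wgt_all : Pool.ME7.WGTStmt :=
  Pool.ME7.wgt_thm Pool.ME7.wvt_all Pool.LD7.phi0_all

theorem Pool.ME7.nvt_all : Pool.ME7.NVTStmt :=
  Pool.MC6.nvt_red Pool.NG7.nvx_all

theorem Pool.ME7.bkt_all : Pool.ME7.BKTStmt :=
  Pool.ME7.BKT_thm Pool.ME7.wgt_all Pool.ME7.pwt_all Pool.ME7.nvt_all Pool.ME7.fndw_all Pool.HZ7.arr_all Pool.ME7.corw_all

theorem Pool.ME7.pwn_all : Pool.ME7.PWNStmt :=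
  Pool.ME7.pwn_thm

theorem Pool.LD7.edu_all : Pool.LD7.EDUStmt :=
  Pool.LD7.edu_thm

theorem Pool.ME7.zsu_all : Pool.ME7.ZSUStmt :=
  Pool.ME7.zsu_thm Pool.ME7.pwn_all exb_all Pool.KQ.trv_thm

theorem Pool.ME7.loq_all : Pool.ME7.LOQStmt :=
  Pool.ME7.LOQ_thm Pool.ME7.pwn_all Pool.LD7.mlg_all Pool.LD7.edu_all Pool.HZ7.spx_all Pool.ME7.zsu_all Pool.KQ.trv_thm

theorem Pool.ME7.wsv_all : Pool.ME7.WSVStmt :=
  Pool.ME7.WSV_thm stc_all MMC_thm Pool.HZ7.ref_all Pool.ME7.loq_all Pool.ME7.pwn_all TTR_thm ZYG_thm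

theorem Pool.ME7.wsg_all : Pool.ME7.WSGStmt :=
  Pool.ME7.wsg_thm Pool.ME7.wsv_all Pool.LD7.phi0_all

theorem Pool.ME7.blk_all : Pool.ME7.BLKStmt :=
  Pool.ME7.BLK_thm Pool.ME7.wsg_all Pool.ME7.fndw_all Pool.HZ7.arr_all Pool.ME7.corw_all Pool.ME7.expw_all Pool.ME7.navw_all

theorem Pool.ME7.fnz_all : Pool.ME7.FNZStmt :=
  Pool.ME7.fnz_thm Pool.ME7.blk_all Pool.ME7.manw_all Pool.ME7.rfgw_all Pool.ME7.navw_all

theorem Pool.ME7.cme_all : Pool.ME7.CMEStmt :=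
  Pool.ME7.cme_thm

theorem Pool.ME7.dlc_all : Pool.ME7.DLCStmt :=
  Pool.ME7.DLC_thm

theorem Pool.IA7.kbt_all : Pool.IA7.KBTStmt :=
  Pool.IA7.kbt_thm EST_thm

theorem Pool.IA7.crt_all : Pool.IA7.CRTStmt :=
  Pool.IA7.crt_thm

theorem Pool.NG7.cqx_all : Pool.NG7.CQXStmt :=
  Pool.NG7.cqx_thm Pool.IA7.crt_all ZYG_thm

theorem Pool.LD7.cst_all : Pool.LD7.CSTStmt :=
  Pool.LD7.CST_thm Pool.IA7.crt_all

theorem Pool.LD7.aug_all : Pool.LD7.AUGStmt :=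
  Pool.LD7.aug_thm

theorem Pool.IA7.mod_all : Pool.IA7.MODStmt :=
  Pool.IA7.mod_thm

theorem Pool.NG7.ntx_all : Pool.NG7.NTXStmt :=
  Pool.NG7.ntx_thm EST_thm TTR_thm

theorem Pool.NG7.mnx_all : Pool.NG7.MNXStmt :=
  Pool.NG7.mnx_thm Pool.ME7.dlc_all Pool.IA7.kbt_all Pool.IA7.crt_all Pool.NG7.cqx_all Pool.LD7.cst_all Pool.LD7.aug_all Pool.IA7.mod_all Pool.NG7.ntx_all

theorem Pool.NG7.rfx_all : Pool.NG7.RFXStmt :=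
  Pool.NG7.RFX_thm EST_thm tct_all

theorem Pool.NG7.fnq_all : Pool.NG7.FNQStmt :=
  Pool.NG7.fnq_thm Pool.NG7.mnx_all Pool.NG7.rfx_all Pool.NG7.nvx_all

theorem Pool.NG7.xdm_all : Pool.NG7.XDMStmt :=
  Pool.NG7.xdm_thm Pool.ME7.dlc_all Pool.IA7.kbt_all Pool.IA7.crt_all Pool.NG7.cqx_all Pool.LD7.aug_all Pool.IA7.mod_all Pool.NG7.ntx_all Pool.NG7.rfx_all

theorem Pool.NG7.xco_all : Pool.NG7.XCOStmt :=
  Pool.NG7.XCO_thm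

theorem Pool.NG7.cmq_all : Pool.NG7.CMQStmt :=
  Pool.NG7.cmq_thm

theorem Pool.MF7.nue_all : Pool.MF7.NUEStmt :=
  Pool.MF7.NUE_thm

theorem Pool.MF7.gce_all : Pool.MF7.GCEStmt :=
  Pool.MF7.GCE_thm

theorem Pool.MF7.nde_all : Pool.MF7.NDEStmt :=
  Pool.MF7.NDE_thm Pool.MF7.nue_all Pool.GY7.prg_all prf_all ZYG_thm cck0_all GCO0_thm Pool.MF7.gce_all

theorem Pool.MF7.nbe_all : Pool.MF7.NBEStmt :=
  Pool.MF7.NBE_thm Pool.MF7.nue_all Pool.MF7.gce_all prf_all cck0_all GCO0_thm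

theorem Pool.MF7.nuf_all : Pool.MF7.NUFStmt :=
  Pool.MF7.nuf_thm Pool.MF7.nue_all

theorem Pool.MF7.nug_all : Pool.MF7.NUGStmt :=
  Pool.MF7.nug_thm

theorem Pool.MF7.bde_all : Pool.MF7.BDEStmt :=
  Pool.MF7.bde_thm Pool.KC7.bgj_all Pool.MF7.nue_all Pool.MF7.nuf_all Pool.MF7.nug_all

theorem Pool.MF7.bue_all : Pool.MF7.BUEStmt :=
  Pool.MF7.BUE_thm Pool.MF7.nue_all Pool.MF7.nde_all Pool.MF7.nbe_all Pool.MF7.bde_all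

theorem Pool.MF7.kue_all : Pool.MF7.KUEStmt :=
  Pool.MF7.KUE_thm dbl_all GCO0_thm cck0_all Pool.KQ.trv_thm

theorem Pool.MF7.nete_all : Pool.MF7.NETEStmt :=
  Pool.MF7.nete_thm mlb0_all kum_all Pool.KQ.brk Pool.KQ.trv_thm lmb0_all

theorem Pool.MF7.lpe_all : Pool.MF7.LPEStmt :=
  Pool.MF7.lpe_thm cck0_all Pool.MF7.kue_all DKU_thm DML_thm xsp0_all Pool.MF7.nete_all siz0_all xgr0_all lmb0_all GCO0_thm Pool.MF7.gce_all Pool.KQ.trv_thm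

theorem Pool.MF7.gge_all : Pool.MF7.GGEStmt :=
  Pool.MF7.GGE_thm Pool.KR.stg_all

theorem Pool.MF7.pye_all : Pool.MF7.PYEStmt :=
  Pool.MF7.pye_thm

theorem Pool.MF7.sme_all : Pool.MF7.SMEStmt :=
  Pool.MF7.SME_thm phb_all Pool.MF7.bue_all Pool.MF7.lpe_all Pool.MF7.gge_all Pool.MF7.pye_all stc_all MMC_thm cck0_all TTR_thm Pool.MF7.gce_all

theorem Pool.MF7.fne_all : Pool.MF7.FNEStmt :=
  Pool.MF7.FNE_thm Pool.MF7.sme_all gld0_all tct_all Pool.MF7.gce_all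

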