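import Pool.Agent.H62.GT.CPL
import Pool.Agent.H80.GT.EST
import Pool.Agent.H67.GT.TTR
import Pool.Agent.H44.GT.TCT

/-!
# The number of cliques of the Turán graph
-/

set_option autoImplicit false

open Finset

namespace Pool.GT7

open Pool.Agent.H23.KT Pool.Agent.H46.KW Pool.KQ

/-- The classes of the Turán graph. -/
def CT_cls (n R : ℕ) : Fin R → Finset (Fin n) := fun i => univ.filter (fun v => v.1 % R = i.1)

lemma CT_mem {n R : ℕ} {i : Fin R} {v : Fin n} : v ∈ CT_cls n R i ↔ v.1 % R = i.1 := by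
  unfold CT_cls
  rw [mem_filter]
  exact ⟨fun h => h.2, fun h => ⟨mem_univ _, h⟩⟩

lemma CT_card (R a r : ℕ) (hr : r < R) (i : Fin R) :
    (CT_cls (R * a + r) R i).card = tctn R a r i := by
  have h1 : (CT_cls (R * a + r) R i).card =
      ((range (R * a + r)).filter (fun v => v % R = i.1)).card := by
    unfold CT_cls
    rw [← card_map Fin.valEmbedding]
    congr 1
    ext v
    simp only [mem_map, mem_filter, mem_univ, true_and, mem_range, Fin.valEmbedding_apply]
    constructor
    · rintro ⟨w, hw, rfl⟩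
      exact ⟨w.2, hw⟩
    · rintro ⟨hv, hw⟩
      exact ⟨⟨v, hv⟩, hw, rfl⟩
  rw [h1, ← Nat.count_eq_card_filter_range]
  have h2 : Nat.count (fun v => v % R = i.1) (R * a + r) =
      Nat.count (fun v => v ≡ i.1 [MOD R]) (R * a + r) := by
    congr 1
    funext v
    unfold Nat.ModEq
    rw [Nat.mod_eq_of_lt i.2]
  have h3 := Nat.count_modEq_card (R * a + r) (show 0 < R by omega) i.1
  have h4 : (R * a + r) / R = a := by
    rw [Nat.mul_add_div (by omega), Nat.div_eq_of_lt hr, Nat.add_zero]
  have h5 : (R * a + r) % R = r := by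
    rw [Nat.mul_add_mod, Nat.mod_eq_of_lt hr]
  rw [h4, h5, Nat.mod_eq_of_lt i.2] at h3
  rw [h2, h3]
  unfold tctn
  split_ifs <;> rfl

theorem count_tur (p t a r : ℕ) (hr : r ≤ p + 3) :
    {s : Finset (Fin ((p + 4) * a + r)) |
        (SimpleGraph.turanGraph ((p + 4) * a + r) (p + 4)).IsNClique t s}.ncard =
      ∑ j ∈ range (t + 1), (r.choose j * (a + 1) ^ j) * ((p + 4 - r).choose (t - j) * a ^ (t - j)) := by
  classical
  set H := SimpleGraph.turanGraph ((p + 4) * a + r) (p + 4) with hH
  set P := CT_cls ((p + 4) * a + r) (p + 4) with hP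
  have hadj : ∀ x y, H.Adj x y ↔ x.1 % (p + 4) ≠ y.1 % (p + 4) := fun _ _ => Iff.rfl
  have hpar : Par H P := by
    constructor
    · intro i j hij
      rw [disjoint_left]
      intro v hv hv'
      rw [hP, CT_mem] at hv hv'
      exact hij (Fin.ext (hv.symm.trans hv'))
    · intro i u hu w hw h
      rw [hP, CT_mem] at hu hw
      rw [hadj] at h
      exact h (hu.trans hw.symm)
  have hcomp : ∀ i k, i ≠ k → ∀ x ∈ P i, ∀ y ∈ P k, H.Adj x y := by
    intro i k hik x hx y hy
    rw [hP, CT_mem] at hx hy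
    rw [hadj, hx, hy]
    exact fun h => hik (Fin.ext h)
  have hun : un P = univ := by
    ext v
    simp only [un, mem_biUnion, mem_univ, true_and, iff_true]
    exact ⟨⟨v.1 % (p + 4), Nat.mod_lt _ (by omega)⟩, CT_mem.2 rfl⟩
  have h1 := CPL_thm H P hpar hcomp t
  rw [hun] at h1
  have h2 : sz P = tctn (p + 4) a r := by
    funext i
    exact CT_card (p + 4) a r (by omega) i
  have h3 : es (tctn (p + 4) a r) t = TT (p + 4) t a r := by
    refine (EST_thm.2.1 (tctn (p + 4) a r) t a r ?_ (tct_sum _ _ _ (by omega))).1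
    intro i
    unfold tctn
    split_ifs
    · exact Or.inr rfl
    · exact Or.inl rfl
  rw [ncard_eq_kc, h1, h2, h3]
  unfold TT
  rw [Polynomial.coeff_mul, Finset.Nat.sum_antidiagonal_eq_sum_range_succ
    (fun i j => ((1 + Polynomial.C (a + 1) * Polynomial.X : Polynomial ℕ) ^ r).coeff i *
      ((1 + Polynomial.C a * Polynomial.X : Polynomial ℕ) ^ (p + 4 - r)).coeff j)]
  apply sum_congr rfl
  intro j _
  simp only [TTR_pow]

end Pool.GT7
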