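import Pool.Agent.H7.KR.All
import Pool.Agent.H60.GT.Count
import Pool.Agent.H52.GT.FNL

/-!
# The number of `t`-cliques, `t ≤ ω`: one statement
-/

set_option autoImplicit false

open Finset

namespace Pool.GT7

/-- The case `t < ω`, from the row `FNL`. -/
theorem below (hF : FNLStmt) : ∃ E : ℕ → ℕ → ℕ → ℕ, ∀ t ω Δ : ℕ, 3 ≤ t → t < ω →
    1 ≤ Δ % (ω - 1) → Δ % (ω - 1) + 2 ≤ t → Δ % (ω - 1) + 4 ≤ ω →
    E t ω (Δ % (ω - 1)) ≤ Δ / (ω - 1) →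
    (∀ v, ((SimpleGraph.turanGraph (Δ + Δ / (ω - 1)) ω).neighborSet v).ncard ≤ Δ) ∧
    (SimpleGraph.turanGraph (Δ + Δ / (ω - 1)) ω).CliqueFree (ω + 1) ∧
    {s : Finset (Fin (Δ + Δ / (ω - 1))) |
        (SimpleGraph.turanGraph (Δ + Δ / (ω - 1)) ω).IsNClique t s}.ncard =
      ∑ j ∈ range (t + 1), ((Δ % (ω - 1)).choose j * (Δ / (ω - 1) + 1) ^ j) *
        ((ω - Δ % (ω - 1)).choose (t - j) * (Δ / (ω - 1)) ^ (t - j)) ∧
    ∀ m : ℕ, 0 < m → ∀ H : SimpleGraph (Fin m),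
      (∀ v, (H.neighborSet v).ncard ≤ Δ) → H.CliqueFree (ω + 1) →
        {s : Finset (Fin m) | H.IsNClique t s}.ncard * (Δ + Δ / (ω - 1)) ≤
          {s : Finset (Fin (Δ + Δ / (ω - 1))) |
            (SimpleGraph.turanGraph (Δ + Δ / (ω - 1)) ω).IsNClique t s}.ncard * m := by
  classical
  choose A hA using hF
  refine ⟨fun t ω r => (if h : Prm (ω - 4) (t - 3) r then A (ω - 4) (t - 3) r h else 0), ?_⟩
  intro t ω Δ ht htω hr1 hrt hrω hE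
  obtain ⟨p, rfl⟩ : ∃ p, ω = p + 4 := ⟨ω - 4, by omega⟩
  obtain ⟨w, rfl⟩ : ∃ w, t = w + 3 := ⟨t - 3, by omega⟩
  have e1 : p + 4 - 1 = p + 3 := by omega
  have e2 : p + 4 - 4 = p := by omega
  have e3 : w + 3 - 3 = w := by omega
  simp only [e1, e2, e3] at hr1 hrt hrω hE
  rw [e1]
  have hP' : Prm p w (Δ % (p + 3)) := ⟨by omega, hr1, by omega, by omega⟩
  rw [dif_pos hP'] at hE
  have hup := hA p w (Δ % (p + 3)) hP' (Δ / (p + 3)) hE
  obtain ⟨a, ha⟩ : ∃ a, a = Δ / (p + 3) := ⟨_, rfl⟩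
  obtain ⟨r, hr⟩ : ∃ r, r = Δ % (p + 3) := ⟨_, rfl⟩
  rw [← hr, ← ha] at hup
  rw [← hr] at hr1 hrt hrω
  rw [← ha, ← hr]
  have hΔ : Δ = (p + 3) * a + r := by
    have := Nat.div_add_mod Δ (p + 3)
    rw [← ha, ← hr] at this
    exact this.symm
  have hsum : Δ + a = (p + 4) * a + r := by
    rw [hΔ]
    ring
  have hcf : (SimpleGraph.turanGraph ((p + 4) * a + r) (p + 4)).CliqueFree (p + 5) :=
    SimpleGraph.turanGraph_cliqueFree (by omega)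
  have hdeg := Pool.KQ.TURh.deg (p + 3) a r
  have hct := count_tur p (w + 3) a r (by omega)
  clear ha hr hE hP'
  subst hΔ
  rw [hsum]
  exact ⟨hdeg, hcf, hct, fun m _ H hd hc => hup m H hd hc⟩

/-- Both cases. -/
theorem both (hF : FNLStmt) : ∃ D : ℕ → ℕ → ℕ → ℕ,
    (∀ ω, D ω ω 1 = max (ω - 1) ((ω * (ω - 2) ^ 3 + 15) / 16)) ∧
    ∀ t ω Δ : ℕ, 3 ≤ t → t ≤ ω → 4 ≤ ω →
    (t = ω ∨ 1 ≤ Δ % (ω - 1) ∧ Δ % (ω - 1) + 2 ≤ t ∧ Δ % (ω - 1) + 4 ≤ ω) →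
    D t ω (Δ % (ω - 1)) ≤ Δ / (ω - 1) →
    (∀ v, ((SimpleGraph.turanGraph (Δ + Δ / (ω - 1)) ω).neighborSet v).ncard ≤ Δ) ∧
    (SimpleGraph.turanGraph (Δ + Δ / (ω - 1)) ω).CliqueFree (ω + 1) ∧
    {s : Finset (Fin (Δ + Δ / (ω - 1))) |
        (SimpleGraph.turanGraph (Δ + Δ / (ω - 1)) ω).IsNClique t s}.ncard =
      ∑ j ∈ range (t + 1), ((Δ % (ω - 1)).choose j * (Δ / (ω - 1) + 1) ^ j) *
        ((ω - Δ % (ω - 1)).choose (t - j) * (Δ / (ω - 1)) ^ (t - j)) ∧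
    ∀ m : ℕ, 0 < m → ∀ H : SimpleGraph (Fin m),
      (∀ v, (H.neighborSet v).ncard ≤ Δ) → H.CliqueFree (ω + 1) →
        {s : Finset (Fin m) | H.IsNClique t s}.ncard * (Δ + Δ / (ω - 1)) ≤
          {s : Finset (Fin (Δ + Δ / (ω - 1))) |
            (SimpleGraph.turanGraph (Δ + Δ / (ω - 1)) ω).IsNClique t s}.ncard * m := by
  classical
  obtain ⟨D, hD1, hD⟩ := Pool.KR.final Pool.KR.upt_all
  obtain ⟨E, hE⟩ := below hF
  refine ⟨fun t ω r => if t = ω then D ω r else E t ω r, fun ω => ?_, ?_⟩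
  · simp only [if_true]
    exact hD1 ω
  intro t ω Δ ht htω hω hcase ha
  by_cases hto : t = ω
  · subst hto
    simp only [if_true] at ha
    obtain ⟨h1, h2, h3, h4⟩ := hD t Δ hω ha
    refine ⟨h1, h2, ?_, h4⟩
    rw [h3]
    have hlt : Δ % (t - 1) < t - 1 := Nat.mod_lt _ (by omega)
    rw [sum_eq_single (Δ % (t - 1))]
    · rw [Nat.choose_self, Nat.choose_self]
      ring
    · intro j hj hne
      rw [mem_range] at hj
      rcases Nat.lt_or_ge j (Δ % (t - 1)) with h | h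
      · rw [Nat.choose_eq_zero_of_lt (show t - Δ % (t - 1) < t - j by omega)]
        ring
      · rw [Nat.choose_eq_zero_of_lt (show Δ % (t - 1) < j by omega)]
        ring
    · intro h
      exact absurd (mem_range.2 (by omega)) h
  · simp only [if_neg hto] at ha
    have hc := hcase.resolve_left hto
    exact hE t ω Δ ht (by omega) hc.1 hc.2.1 hc.2.2 ha

end Pool.GT7
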