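import Pool.Agent.H60.GT.Fin9
import Pool.Agent.H7.MF.Stmts

/-!
# Part (A) with the natural conditions
-/

set_option autoImplicit false

open Finset

namespace Pool.MC6

open Pool.GT7

/-- The conditions of part (A) for `t < ω`. -/
def CdA (t ω r : ℕ) : Prop :=
  2 * r < (t - 2) * (ω - 1 - r) ∧ t * (r - 1).choose (t - 2) < (ω - 2).choose (t - 2)

theorem upb10 (hF : FNLStmt) (hX : Pool.GX7.FNXStmt) (h9 : Pool.GV7.FN9Stmt)
    (hE : Pool.MF7.FNEStmt) (t ω r : ℕ) (ht : 3 ≤ t) (htω : t < ω) (hr : 1 ≤ r)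
    (h : CdA t ω r) : ∃ a₀ : ℕ, UpA (ω - 4) (t - 3) r a₀ := by
  obtain ⟨p, rfl⟩ : ∃ p, ω = p + 4 := ⟨ω - 4, by omega⟩
  obtain ⟨w, rfl⟩ : ∃ w, t = w + 3 := ⟨t - 3, by omega⟩
  have e1 : p + 4 - 4 = p := by omega
  have e2 : w + 3 - 3 = w := by omega
  have e3 : p + 4 - 1 = p + 3 := by omega
  have e4 : p + 4 - 2 = p + 2 := by omega
  have e5 : w + 3 - 2 = w + 1 := by omega
  rw [e1, e2]
  unfold CdA at h
  rw [e3, e4, e5] at h
  obtain ⟨h2, h3⟩ := h
  have hrp : r ≤ p := by
    by_contra hcon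
    have hwp : w ≤ p := by omega
    rcases Nat.lt_or_ge r (p + 3) with h7 | h7
    · rcases Nat.lt_or_ge r (p + 2) with h8 | h8
      · have h9' : p + 3 - r = 2 := by omega
        rw [h9'] at h2
        omega
      · have h9' : p + 3 - r = 1 := by omega
        rw [h9'] at h2
        omega
    · have h9' : p + 3 - r = 0 := by omega
      rw [h9', mul_zero] at h2
      omega
  rcases Nat.lt_or_ge r (w + 2) with h4 | h4
  · exact hF p w r ⟨by omega, hr, by omega, hrp⟩
  · rcases Nat.lt_or_ge w 2 with h5 | h5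
    · rcases Nat.eq_zero_or_pos w with h6 | h6
      · subst h6
        exact hX p r ⟨by omega, by omega⟩
      · have h7 : w = 1 := by omega
        subst h7
        exact h9 p 1 r ⟨by omega, by omega, by omega, by omega⟩
    · exact hE p w r ⟨h5, by omega, h4, hrp, h2, h3⟩

end Pool.MC6
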