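import Pool.Agent.H60.GT.Fin10
import Pool.Agent.H7.NF.Ari

/-!
# The clause for `ω ≤ 27`
-/

set_option autoImplicit false

open Finset

namespace Pool.MC6

open Pool.GT7

/-- The final statement with the clause for `ω ≤ 27`. -/
theorem final11 (hA : PartA CdA) (hB : PartB CdB) (hC : PartC CdM) :
    ∃ D : ℕ → ℕ → ℕ → ℕ,
      (∀ ω, 4 ≤ ω → D ω ω 1 = max (ω - 1) ((ω * (ω - 2) ^ 3 + 15) / 16)) ∧
      ∀ t ω r a : ℕ, 3 ≤ t → t ≤ ω → 4 ≤ ω → r + 2 ≤ ω → D t ω r ≤ a →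
        ((t = ω ∨ 1 ≤ r ∧ CdA t ω r) →
          Attains t ((ω - 1) * a + r) ω (SimpleGraph.turanGraph (ω * a + r) ω) ∧
          cliques t (SimpleGraph.turanGraph (ω * a + r) ω) = ∑ j ∈ range (t + 1),
            (r.choose j * (a + 1) ^ j) * ((ω - r).choose (t - j) * a ^ (t - j))) ∧
        (t = 3 ∧ CdB ω r → ∃ R : SimpleGraph (Fin (ω * a + r + 1)),
          Attains 3 ((ω - 1) * a + r) ω R ∧
          cliques 3 R + ((ω - 1 - r) * a + 1) / 2 * ((ω - 2) * a + r + 1) =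
            ∑ j ∈ range 4, ((r + 1).choose j * (a + 1) ^ j) *
              ((ω - (r + 1)).choose (3 - j) * a ^ (3 - j)) + (ω - 1 - r) * a % 2) ∧
        (4 ≤ t ∧ t < ω ∧ CdM t ω r →
          ∃ (n : ℕ) (R : SimpleGraph (Fin n)), Attains t ((ω - 1) * a + r) ω R) ∧
        (t < ω ∧ ω ≤ 27 ∧ 1 ≤ r ∧ r + 3 ≤ ω ∧ 2 * r ≠ (t - 2) * (ω - 1 - r) →
          ∃ (n : ℕ) (R : SimpleGraph (Fin n)), Attains t ((ω - 1) * a + r) ω R) := by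
  obtain ⟨D, hD1, hD⟩ := final6 CdA CdB CdM hA hB hC
  refine ⟨D, hD1, fun t ω r a h1 h2 h3 h4 h5 => ?_⟩
  obtain ⟨h6, h7, h8⟩ := hD t ω r a h1 h2 h3 h4 h5
  refine ⟨h6, h7, h8, ?_⟩
  rintro ⟨h9, h10, h11, h12, h13⟩
  obtain ⟨k1, k2⟩ := Pool.NF7.ari t ω r h1 h9 h10 h11 h12
  rcases Nat.lt_or_ge (2 * r) ((t - 2) * (ω - 1 - r)) with h14 | h14
  · exact ⟨_, _, (h6 (Or.inr ⟨h11, h14, k1 h14⟩)).1⟩
  · have h15 : (t - 2) * (ω - 1 - r) < 2 * r := by omega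
    rcases Nat.eq_or_lt_of_le h1 with h16 | h16
    · have ht3 : t = 3 := h16.symm
      subst ht3
      obtain ⟨R, hR, -⟩ := h7 ⟨rfl, h12, by omega⟩
      exact ⟨_, R, hR⟩
    · exact h8 ⟨h16, h9, h12, h15, k2 h15⟩

end Pool.MC6
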