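import Pool.Agent.H60.GT.Fin11
import Pool.Agent.H7.NG.Stmts

/-!
# Part (C) with the number of vertices, and the final statement
-/

set_option autoImplicit false

open Finset

namespace Pool.MC6

open Pool.GT7

/-- Part (C): `4 ≤ t < ω`, large residues; the graph has `Δ + a + 1` vertices. -/
def PartX (C : ℕ → ℕ → ℕ → Prop) : Prop :=
  ∀ t ω r : ℕ, 4 ≤ t → t < ω → C t ω r → ∃ a₀ : ℕ, ∀ a ≥ a₀,
    ∃ R : SimpleGraph (Fin (ω * a + r + 1)), Attains t ((ω - 1) * a + r) ω R ∧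
      (r + 3 = ω → cliques t R = (ω - 2).choose t * (a + 1) ^ t +
        2 * a * ((ω - 2).choose (t - 1) * (a + 1) ^ (t - 1)) +
          a * (a - 1) * ((ω - 2).choose (t - 2) * (a + 1) ^ (t - 2)))

theorem partX (h : Pool.NG7.CMQStmt) (h1 : Pool.NG7.FNQStmt) (h2 : Pool.NG7.XDMStmt)
    (h3 : Pool.NG7.XCOStmt) (h4 : Pool.KC7.BKJStmt) (h5 : Pool.ME7.BKTStmt) : PartX CdM := by
  intro t ω r ht htω hC
  obtain ⟨p, rfl⟩ : ∃ p, ω = p + 4 := ⟨ω - 4, by omega⟩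
  obtain ⟨w, rfl⟩ : ∃ w, t = w + 3 := ⟨t - 3, by omega⟩
  unfold CdM at hC
  have e1 : p + 4 - 1 = p + 3 := by omega
  have e2 : p + 4 - 2 = p + 2 := by omega
  have e3 : w + 3 - 2 = w + 1 := by omega
  have e4 : w + 3 - 1 = w + 2 := by omega
  rw [e1, e2, e3, e4] at hC
  rw [e1, e2, e3, e4]
  have hp2 : 2 ≤ p := by
    by_contra hcon
    have hw : w = 1 := by omega
    have hp : p = 1 := by omega
    subst hw
    subst hp
    have := hC.2.1
    have := hC.1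
    omega
  obtain ⟨a₀, ha₀⟩ := h h1 h2 h3 h4 h5 p w r hp2 (by omega) (by omega) (by omega)
    hC.2.1 hC.2.2
  refine ⟨a₀, fun a ha => ?_⟩
  obtain ⟨R, h6, h7, h8⟩ := ha₀ a ha
  have key : ∀ N : ℕ, N = (p + 3) * a + r + a + 1 → ∃ R : SimpleGraph (Fin N),
      Attains (w + 3) ((p + 3) * a + r) (p + 4) R ∧
      (r + 3 = p + 4 → cliques (w + 3) R = (p + 2).choose (w + 3) * (a + 1) ^ (w + 3) +
        2 * a * ((p + 2).choose (w + 2) * (a + 1) ^ (w + 2)) +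
          a * (a - 1) * ((p + 2).choose (w + 1) * (a + 1) ^ (w + 1))) := by
    intro N hN
    subst hN
    exact ⟨R, ⟨by omega, ⟨h6.1, h6.2⟩, fun m _ H hH => h8 m H ⟨hH.1, hH.2⟩⟩,
      fun hr => h7 (by omega)⟩
  apply key
  ring

/-- The final statement. -/
theorem final12 (hA : PartA CdA) (hB : PartB CdB) (hC : PartX CdM) :
    ∃ D : ℕ → ℕ → ℕ → ℕ,
      (∀ ω, 4 ≤ ω → D ω ω 1 = max (ω - 1) ((ω * (ω - 2) ^ 3 + 15) / 16)) ∧
      ∀ t ω r a : ℕ, 3 ≤ t → t ≤ ω → 4 ≤ ω → r + 2 ≤ ω → D t ω r ≤ a →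
        ((t = ω ∨ 1 ≤ r ∧ CdA t ω r) →
          Attains t ((ω - 1) * a + r) ω (SimpleGraph.turanGraph (ω * a + r) ω) ∧
          cliques t (SimpleGraph.turanGraph (ω * a + r) ω) = ∑ j ∈ range (t + 1),
            (r.choose j * (a + 1) ^ j) * ((ω - r).choose (t - j) * a ^ (t - j))) ∧
        (t = 3 ∧ CdB ω r → ∃ R : SimpleGraph (Fin (ω * a + r + 1)),
          Attains 3 ((ω - 1) * a + r) ω R ∧
          cliques 3 R + ((ω - 1 - r) * a + 1) / 2 * ((ω - 2) * a + r + 1) =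
            ∑ j ∈ range 4, ((r + 1).choose j * (a + 1) ^ j) *
              ((ω - (r + 1)).choose (3 - j) * a ^ (3 - j)) + (ω - 1 - r) * a % 2) ∧
        (4 ≤ t ∧ t < ω ∧ CdM t ω r → ∃ R : SimpleGraph (Fin (ω * a + r + 1)),
          Attains t ((ω - 1) * a + r) ω R ∧
          (r + 3 = ω → cliques t R = (ω - 2).choose t * (a + 1) ^ t +
            2 * a * ((ω - 2).choose (t - 1) * (a + 1) ^ (t - 1)) +
              a * (a - 1) * ((ω - 2).choose (t - 2) * (a + 1) ^ (t - 2)))) ∧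
        (t < ω ∧ ω ≤ 27 ∧ 1 ≤ r ∧ r + 3 ≤ ω ∧ 2 * r ≠ (t - 2) * (ω - 1 - r) →
          ∃ (n : ℕ) (R : SimpleGraph (Fin n)), Attains t ((ω - 1) * a + r) ω R) := by
  classical
  obtain ⟨D, hD1, hD⟩ := hA
  choose B hB' using hB
  choose E hE using hC
  refine ⟨fun t ω r => if t = ω then max 1 (D t ω r) else
    max 1 (max (D t ω r) (max (if h : 4 ≤ ω ∧ CdB ω r then B ω r h.1 h.2 else 0)
      (if h : 4 ≤ t ∧ t < ω ∧ CdM t ω r then E t ω r h.1 h.2.1 h.2.2 else 0))), ?_, ?_⟩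
  · intro ω hω
    simp only [if_true]
    rw [hD1]
    exact max_eq_right (le_trans (by omega) (le_max_left _ _))
  · intro t ω r a ht htω hω hrω ha
    simp only at ha
    have h1 : 1 ≤ a ∧ D t ω r ≤ a := by
      split_ifs at ha with h
      · exact ⟨(le_max_left _ _).trans ha, (le_max_right _ _).trans ha⟩
      all_goals exact ⟨(le_max_left _ _).trans ha,
        ((le_max_left _ _).trans (le_max_right _ _)).trans ha⟩
    have h6 := fun hC' => hD t ω r a ht htω hω hrω hC' h1.2 h1.1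
    have h7 : t = 3 ∧ CdB ω r → ∃ R : SimpleGraph (Fin (ω * a + r + 1)),
          Attains 3 ((ω - 1) * a + r) ω R ∧
          cliques 3 R + ((ω - 1 - r) * a + 1) / 2 * ((ω - 2) * a + r + 1) =
            ∑ j ∈ range 4, ((r + 1).choose j * (a + 1) ^ j) *
              ((ω - (r + 1)).choose (3 - j) * a ^ (3 - j)) + (ω - 1 - r) * a % 2 := by
      rintro ⟨ht3, hcb⟩
      have hne : ¬ t = ω := by omega
      rw [if_neg hne, dif_pos (⟨hω, hcb⟩ : 4 ≤ ω ∧ CdB ω r)] at ha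
      exact hB' ω r hω hcb a (((le_max_left _ _).trans
        ((le_max_right _ _).trans (le_max_right _ _))).trans ha)
    have h8 : 4 ≤ t ∧ t < ω ∧ CdM t ω r → ∃ R : SimpleGraph (Fin (ω * a + r + 1)),
          Attains t ((ω - 1) * a + r) ω R ∧
          (r + 3 = ω → cliques t R = (ω - 2).choose t * (a + 1) ^ t +
            2 * a * ((ω - 2).choose (t - 1) * (a + 1) ^ (t - 1)) +
              a * (a - 1) * ((ω - 2).choose (t - 2) * (a + 1) ^ (t - 2))) := by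
      rintro ⟨ht4, htlt, hcc⟩
      have hne : ¬ t = ω := by omega
      rw [if_neg hne, dif_pos (⟨ht4, htlt, hcc⟩ : 4 ≤ t ∧ t < ω ∧ CdM t ω r)] at ha
      exact hE t ω r ht4 htlt hcc a (((le_max_right _ _).trans
        ((le_max_right _ _).trans (le_max_right _ _))).trans ha)
    refine ⟨h6, h7, h8, ?_⟩
    rintro ⟨h9, h10, h11, h12, h13⟩
    obtain ⟨k1, k2⟩ := Pool.NF7.ari t ω r ht h9 h10 h11 h12
    rcases Nat.lt_or_ge (2 * r) ((t - 2) * (ω - 1 - r)) with h14 | h14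
    · exact ⟨_, _, (h6 (Or.inr ⟨h11, h14, k1 h14⟩)).1⟩
    · have h15 : (t - 2) * (ω - 1 - r) < 2 * r := by omega
      rcases Nat.eq_or_lt_of_le ht with h16 | h16
      · have ht3 : t = 3 := h16.symm
        subst ht3
        obtain ⟨R, hR, -⟩ := h7 ⟨rfl, h12, by omega⟩
        exact ⟨_, R, hR⟩
      · obtain ⟨R, hR, -⟩ := h8 ⟨h16, h9, h12, h15, k2 h15⟩
        exact ⟨_, R, hR⟩

end Pool.MC6
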