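import Pool.Agent.H60.GT.Fin5
import Pool.Agent.H60.GT.Adm
import Pool.Agent.H7.JB.Stmts
import Pool.Agent.H7.IA.Stmts

/-!
# The number of `t`-cliques: Turán graphs and other extremal graphs, one statement
-/

set_option autoImplicit false

open Finset

namespace Pool.MC6

open Pool.GT7

/-- The number of cliques of a complete multipartite graph. -/
theorem tt_formula (b u a s : ℕ) : TT b u a s =
    ∑ j ∈ range (u + 1), (s.choose j * (a + 1) ^ j) * ((b - s).choose (u - j) * a ^ (u - j)) := by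
  unfold TT
  rw [Polynomial.coeff_mul, Finset.Nat.sum_antidiagonal_eq_sum_range_succ
    (fun i j => ((1 + Polynomial.C (a + 1) * Polynomial.X : Polynomial ℕ) ^ s).coeff i *
      ((1 + Polynomial.C a * Polynomial.X : Polynomial ℕ) ^ (b - s)).coeff j)]
  apply sum_congr rfl
  intro j _
  simp only [TTR_pow]

/-- Part (A). -/
def PartA (C : ℕ → ℕ → ℕ → Prop) : Prop :=
  ∃ D : ℕ → ℕ → ℕ → ℕ, (∀ ω, D ω ω 1 = max (ω - 1) ((ω * (ω - 2) ^ 3 + 15) / 16)) ∧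
    ∀ t ω r a : ℕ, 3 ≤ t → t ≤ ω → 4 ≤ ω → r + 2 ≤ ω → (t = ω ∨ 1 ≤ r ∧ C t ω r) →
      D t ω r ≤ a → 0 < a →
      Attains t ((ω - 1) * a + r) ω (SimpleGraph.turanGraph (ω * a + r) ω) ∧
      cliques t (SimpleGraph.turanGraph (ω * a + r) ω) = ∑ j ∈ range (t + 1),
        (r.choose j * (a + 1) ^ j) * ((ω - r).choose (t - j) * a ^ (t - j))

theorem partA (C : ℕ → ℕ → ℕ → Prop)
    (hU : ∀ t ω r : ℕ, 3 ≤ t → t < ω → 1 ≤ r → C t ω r → ∃ a₀ : ℕ, UpA (ω - 4) (t - 3) r a₀) :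
    PartA C := by
  obtain ⟨D, hD1, hD⟩ := both5 C hU
  refine ⟨D, hD1, ?_⟩
  intro t ω r a ht htω hω hrω hC hDa ha
  have hmod : ((ω - 1) * a + r) % (ω - 1) = r := by
    rw [Nat.mul_add_mod, Nat.mod_eq_of_lt (by omega)]
  have hdiv : ((ω - 1) * a + r) / (ω - 1) = a := by
    rw [Nat.mul_add_div (by omega), Nat.div_eq_of_lt (by omega), Nat.add_zero]
  have h := hD t ω ((ω - 1) * a + r) ht htω hω (by rw [hmod]; exact hC) (by rw [hmod, hdiv]; exact hDa)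
  rw [hmod, hdiv] at h
  have key : ∀ N : ℕ, N = (ω - 1) * a + r + a →
      Attains t ((ω - 1) * a + r) ω (SimpleGraph.turanGraph N ω) ∧
      cliques t (SimpleGraph.turanGraph N ω) = ∑ j ∈ range (t + 1),
        (r.choose j * (a + 1) ^ j) * ((ω - r).choose (t - j) * a ^ (t - j)) := by
    intro N hN
    subst hN
    obtain ⟨h1, h2, h3, h4⟩ := h
    exact ⟨⟨by omega, ⟨h1, h2⟩, fun m hm H hH => h4 m hm H hH.1 hH.2⟩, h3⟩
  apply key
  obtain ⟨w, rfl⟩ : ∃ w, ω = w + 1 := ⟨ω - 1, by omega⟩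
  rw [Nat.add_sub_cancel]
  ring

/-- Part (B): triangles, large residues. -/
def PartB (C : ℕ → ℕ → Prop) : Prop :=
  ∀ ω r : ℕ, 4 ≤ ω → C ω r → ∃ a₀ : ℕ, ∀ a ≥ a₀, ∃ R : SimpleGraph (Fin (ω * a + r + 1)),
    Attains 3 ((ω - 1) * a + r) ω R ∧
    cliques 3 R + ((ω - 1 - r) * a + 1) / 2 * ((ω - 2) * a + r + 1) =
      ∑ j ∈ range 4, ((r + 1).choose j * (a + 1) ^ j) *
        ((ω - (r + 1)).choose (3 - j) * a ^ (3 - j)) + (ω - 1 - r) * a % 2

theorem partB_aux (p r a : ℕ) (K : ℕ) (h : (K : ℝ) = Pool.HZ7.kx p r a) :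
    K + ((p + 3 - r) * a + 1) / 2 * ((p + 2) * a + r + 1) =
      ∑ j ∈ range 4, ((r + 1).choose j * (a + 1) ^ j) *
        ((p + 4 - (r + 1)).choose (3 - j) * a ^ (3 - j)) + (p + 3 - r) * a % 2 := by
  rw [← tt_formula (p + 4) 3 a (r + 1)]
  obtain ⟨k, hk⟩ : ∃ k, k = (p + 3 - r) * a := ⟨_, rfl⟩
  unfold Pool.HZ7.kx Pool.HZ7.Xz at h
  have hkr : ((p + 3 - r : ℕ) : ℝ) * a = (k : ℝ) := by
    rw [hk]
    push_cast
    ring
  rw [hkr] at h
  rw [← hk] at h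
  rw [← hk]
  rcases Nat.even_or_odd k with he | ho
  · rw [if_pos he] at h
    obtain ⟨q, hq⟩ := he
    have h1 : (k + 1) / 2 = q := by omega
    have h2 : k % 2 = 0 := by omega
    rw [h1, h2]
    have hkq : (k : ℝ) = 2 * q := by
      rw [hq]
      push_cast
      ring
    rw [hkq] at h
    have : ((K + q * ((p + 2) * a + r + 1) : ℕ) : ℝ) = ((TT (p + 4) 3 a (r + 1) + 0 : ℕ) : ℝ) := by
      push_cast
      linarith
    exact_mod_cast this
  · have hne : ¬ Even k := Nat.not_even_iff_odd.2 ho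
    rw [if_neg hne] at h
    obtain ⟨q, hq⟩ := ho
    have h1 : (k + 1) / 2 = q + 1 := by omega
    have h2 : k % 2 = 1 := by omega
    rw [h1, h2]
    have hkq : (k : ℝ) = 2 * q + 1 := by
      rw [hq]
      push_cast
      ring
    rw [hkq] at h
    have : ((K + (q + 1) * ((p + 2) * a + r + 1) : ℕ) : ℝ) =
        ((TT (p + 4) 3 a (r + 1) + 1 : ℕ) : ℝ) := by
      push_cast
      linarith
    exact_mod_cast this

theorem partB_gen (P : ℕ → ℕ → Prop)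
    (h : ∀ p r : ℕ, P p r → ∃ a₀ : ℕ, ∀ a ≥ a₀,
      ∃ R : SimpleGraph (Fin ((p + 3) * a + r + a + 1)),
        (∀ v, (R.neighborSet v).ncard ≤ (p + 3) * a + r) ∧ R.CliqueFree (p + 5) ∧
        ({s : Finset (Fin ((p + 3) * a + r + a + 1)) | R.IsNClique 3 s}.ncard : ℝ) =
          Pool.HZ7.kx p r a ∧
        ∀ (m : ℕ) (H : SimpleGraph (Fin m)),
          (∀ v, (H.neighborSet v).ncard ≤ (p + 3) * a + r) → H.CliqueFree (p + 5) →
          {s : Finset (Fin m) | H.IsNClique 3 s}.ncard * ((p + 3) * a + r + a + 1) ≤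
            {s : Finset (Fin ((p + 3) * a + r + a + 1)) | R.IsNClique 3 s}.ncard * m) :
    PartB (fun ω r => P (ω - 4) r) := by
  intro ω r hω hP
  obtain ⟨p, rfl⟩ : ∃ p, ω = p + 4 := ⟨ω - 4, by omega⟩
  simp only [Nat.add_sub_cancel] at hP
  obtain ⟨a₀, ha₀⟩ := h p r hP
  refine ⟨a₀, fun a ha => ?_⟩
  obtain ⟨R, h1, h2, h3, h4⟩ := ha₀ a ha
  have e1 : p + 4 - 1 = p + 3 := by omega
  have e2 : p + 4 - 2 = p + 2 := by omega
  rw [e1, e2]
  have hct := partB_aux p r a _ h3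
  have key : ∀ N : ℕ, N = (p + 3) * a + r + a + 1 → ∃ R : SimpleGraph (Fin N),
      Attains 3 ((p + 3) * a + r) (p + 4) R ∧
      cliques 3 R + ((p + 3 - r) * a + 1) / 2 * ((p + 2) * a + r + 1) =
        ∑ j ∈ range 4, ((r + 1).choose j * (a + 1) ^ j) *
          ((p + 4 - (r + 1)).choose (3 - j) * a ^ (3 - j)) + (p + 3 - r) * a % 2 := by
    intro N hN
    subst hN
    exact ⟨R, ⟨by omega, ⟨h1, h2⟩, fun m _ H hH => h4 m H hH.1 hH.2⟩, hct⟩
  apply key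
  ring

/-- Part (C): `4 ≤ t < ω`, large residues. -/
def PartC (C : ℕ → ℕ → ℕ → Prop) : Prop :=
  ∀ t ω r : ℕ, 4 ≤ t → t < ω → C t ω r → ∃ a₀ : ℕ, ∀ a ≥ a₀,
    ∃ (n : ℕ) (R : SimpleGraph (Fin n)), Attains t ((ω - 1) * a + r) ω R

/-- The conditions of part (C). -/
def CdT (t ω r : ℕ) : Prop :=
  r + 4 ≤ ω ∧ 2 * r * (r - 1).choose (t - 2) + (ω - 2).choose (t - 2) * ((t - 2) * (ω - 1 - r)) <
    (ω - 2).choose (t - 2) * (2 * r)

theorem partC (h : Pool.IA7.FNTStmt) : PartC CdT := by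
  intro t ω r ht htω hC
  obtain ⟨p, rfl⟩ : ∃ p, ω = p + 4 := ⟨ω - 4, by omega⟩
  obtain ⟨w, rfl⟩ : ∃ w, t = w + 3 := ⟨t - 3, by omega⟩
  unfold CdT at hC
  have e1 : p + 4 - 1 = p + 3 := by omega
  have e2 : p + 4 - 2 = p + 2 := by omega
  have e3 : w + 3 - 2 = w + 1 := by omega
  rw [e1, e2, e3] at hC
  rw [e1]
  obtain ⟨a₀, ha₀⟩ := h p w r ⟨by omega, by omega, by omega, hC.2⟩
  refine ⟨a₀, fun a ha => ?_⟩
  obtain ⟨n, R, hn, -, h1, h2, h3⟩ := ha₀ a ha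
  exact ⟨n, R, by omega, ⟨h1, h2⟩, fun m _ H hH => h3 m H hH.1 hH.2⟩

/-- The final statement. -/
theorem final6 (C : ℕ → ℕ → ℕ → Prop) (CB : ℕ → ℕ → Prop) (CC : ℕ → ℕ → ℕ → Prop)
    (hA : PartA C) (hB : PartB CB) (hC : PartC CC) :
    ∃ D : ℕ → ℕ → ℕ → ℕ,
      (∀ ω, 4 ≤ ω → D ω ω 1 = max (ω - 1) ((ω * (ω - 2) ^ 3 + 15) / 16)) ∧
      ∀ t ω r a : ℕ, 3 ≤ t → t ≤ ω → 4 ≤ ω → r + 2 ≤ ω → D t ω r ≤ a →
        ((t = ω ∨ 1 ≤ r ∧ C t ω r) →
          Attains t ((ω - 1) * a + r) ω (SimpleGraph.turanGraph (ω * a + r) ω) ∧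
          cliques t (SimpleGraph.turanGraph (ω * a + r) ω) = ∑ j ∈ range (t + 1),
            (r.choose j * (a + 1) ^ j) * ((ω - r).choose (t - j) * a ^ (t - j))) ∧
        (t = 3 ∧ CB ω r → ∃ R : SimpleGraph (Fin (ω * a + r + 1)),
          Attains 3 ((ω - 1) * a + r) ω R ∧
          cliques 3 R + ((ω - 1 - r) * a + 1) / 2 * ((ω - 2) * a + r + 1) =
            ∑ j ∈ range 4, ((r + 1).choose j * (a + 1) ^ j) *
              ((ω - (r + 1)).choose (3 - j) * a ^ (3 - j)) + (ω - 1 - r) * a % 2) ∧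
        (4 ≤ t ∧ t < ω ∧ CC t ω r →
          ∃ (n : ℕ) (R : SimpleGraph (Fin n)), Attains t ((ω - 1) * a + r) ω R) := by
  classical
  obtain ⟨D, hD1, hD⟩ := hA
  choose B hB' using hB
  choose E hE using hC
  refine ⟨fun t ω r => if t = ω then max 1 (D t ω r) else
    max 1 (max (D t ω r) (max (if h : 4 ≤ ω ∧ CB ω r then B ω r h.1 h.2 else 0)
      (if h : 4 ≤ t ∧ t < ω ∧ CC t ω r then E t ω r h.1 h.2.1 h.2.2 else 0))), ?_, ?_⟩
  · intro ω hω
    simp only [if_true]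
    rw [hD1]
    exact max_eq_right (le_trans (by omega) (le_max_left _ _))
  · intro t ω r a ht htω hω hrω ha
    simp only at ha
    have h1 : 1 ≤ a ∧ D t ω r ≤ a := by
      split_ifs at ha with h
      · exact ⟨(le_max_left _ _).trans ha, (le_max_right _ _).trans ha⟩
      all_goals exact ⟨(le_max_left _ _).trans ha,
        ((le_max_left _ _).trans (le_max_right _ _)).trans ha⟩
    refine ⟨fun hC' => hD t ω r a ht htω hω hrω hC' h1.2 h1.1, ?_, ?_⟩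
    · rintro ⟨ht3, hcb⟩
      have hne : ¬ t = ω := by omega
      rw [if_neg hne, dif_pos (⟨hω, hcb⟩ : 4 ≤ ω ∧ CB ω r)] at ha
      exact hB' ω r hω hcb a (((le_max_left _ _).trans
        ((le_max_right _ _).trans (le_max_right _ _))).trans ha)
    · rintro ⟨ht4, htlt, hcc⟩
      have hne : ¬ t = ω := by omega
      rw [if_neg hne, dif_pos (⟨ht4, htlt, hcc⟩ : 4 ≤ t ∧ t < ω ∧ CC t ω r)] at ha
      exact hE t ω r ht4 htlt hcc a (((le_max_right _ _).trans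
        ((le_max_right _ _).trans (le_max_right _ _))).trans ha)

end Pool.MC6
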