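import Pool.Agent.H60.GT.Fin6
import Pool.Agent.H7.KC.Stmts

/-!
# Part (C) with the larger range of residues
-/

set_option autoImplicit false

open Finset

namespace Pool.MC6

open Pool.GT7

/-- The conditions of part (C). -/
def CdJ (t ω r : ℕ) : Prop :=
  r + 4 ≤ ω ∧ (t - 2) * (ω - 1 - r) < 2 * r ∧
    2 * r * t * (r - 1).choose (t - 2) + (t - 1) * (t - 2) * (ω - 1 - r) * (ω - 2).choose (t - 2) <
      2 * r * t * (ω - 2).choose (t - 2)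

theorem partC7 (h1 : Pool.KC7.CMBStmt) (h2 : Pool.KC7.FNJStmt) (h3 : Pool.IA7.FNTStmt) :
    PartC CdJ := by
  intro t ω r ht htω hC
  obtain ⟨p, rfl⟩ : ∃ p, ω = p + 4 := ⟨ω - 4, by omega⟩
  obtain ⟨w, rfl⟩ : ∃ w, t = w + 3 := ⟨t - 3, by omega⟩
  unfold CdJ at hC
  have e1 : p + 4 - 1 = p + 3 := by omega
  have e2 : p + 4 - 2 = p + 2 := by omega
  have e3 : w + 3 - 2 = w + 1 := by omega
  have e4 : w + 3 - 1 = w + 2 := by omega
  rw [e1, e2, e3, e4] at hC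
  rw [e1]
  obtain ⟨a₀, ha₀⟩ := h1 h2 h3 p w r (by omega) (by omega) (by omega) hC.2.1 hC.2.2
  refine ⟨a₀, fun a ha => ?_⟩
  obtain ⟨n, R, hn, -, h4, h5, h6⟩ := ha₀ a ha
  exact ⟨n, R, by omega, ⟨h4, h5⟩, fun m _ H hH => h6 m H hH.1 hH.2⟩

end Pool.MC6
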