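import Pool.Agent.H60.GT.Fin6
import Pool.Agent.H7.ME.Stmts

/-!
# Parts (B) and (C) for all residues `r ≤ ω - 3` and all `ω`
-/

set_option autoImplicit false

open Finset

namespace Pool.MC6

open Pool.GT7

/-- The conditions of part (B). -/
def CdB (ω r : ℕ) : Prop := r + 3 ≤ ω ∧ ω - 1 < 3 * r

theorem partB9 (h : Pool.ME7.CMEStmt) (h1 : Pool.ME7.FNZStmt) (h2 : Pool.JB7.FNGStmt) :
    PartB CdB := by
  intro ω r hω hC
  refine partB_gen (fun p r => 1 ≤ p ∧ r ≤ p + 1 ∧ p + 3 < 3 * r)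
    (fun p r hP => h h1 h2 p r hP.1 hP.2.1 hP.2.2) ω r hω ?_
  obtain ⟨h3, h4⟩ := hC
  exact ⟨by omega, by omega, by omega⟩

/-- The conditions of part (C). -/
def CdM (t ω r : ℕ) : Prop :=
  r + 3 ≤ ω ∧ (t - 2) * (ω - 1 - r) < 2 * r ∧
    2 * r * t * (r - 1).choose (t - 2) + (t - 1) * (t - 2) * (ω - 1 - r) * (ω - 2).choose (t - 2) <
      2 * r * t * (ω - 2).choose (t - 2)

theorem partC9 (h1 : Pool.ME7.CMFStmt) (h2 : Pool.ME7.FNTStmt) (h3 : Pool.KC7.FNJStmt)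
    (h4 : Pool.IA7.FNTStmt) (h5 : Pool.KC7.CMBStmt) : PartC CdM := by
  intro t ω r ht htω hC
  obtain ⟨p, rfl⟩ : ∃ p, ω = p + 4 := ⟨ω - 4, by omega⟩
  obtain ⟨w, rfl⟩ : ∃ w, t = w + 3 := ⟨t - 3, by omega⟩
  unfold CdM at hC
  have e1 : p + 4 - 1 = p + 3 := by omega
  have e2 : p + 4 - 2 = p + 2 := by omega
  have e3 : w + 3 - 2 = w + 1 := by omega
  have e4 : w + 3 - 1 = w + 2 := by omega
  rw [e1, e2, e3, e4] at hC
  rw [e1]
  have hp2 : 2 ≤ p := by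
    by_contra hcon
    have hw : w = 1 := by omega
    have hp : p = 1 := by omega
    subst hw
    subst hp
    have := hC.2.1
    have := hC.1
    omega
  obtain ⟨a₀, ha₀⟩ := h1 h2 h3 h4 h5 p w r hp2 (by omega) (by omega) (by omega)
    hC.2.1 hC.2.2
  refine ⟨a₀, fun a ha => ?_⟩
  obtain ⟨n, R, hn, -, h6, h7, h8⟩ := ha₀ a ha
  exact ⟨n, R, by omega, ⟨h6, h7⟩, fun m _ H hH => h8 m H hH.1 hH.2⟩

end Pool.MC6
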